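import Mathlib

/-!
Erdos' problem on sets in which no element divides two others: definitions.
-/

namespace Pool.Agent.Helper56.DivTwo

open Finset

/-- `A` is admissible: no element of `A` divides two other elements of `A`. -/
def Admissible (A : Finset ℕ) : Prop :=
  ∀ a ∈ A, ∀ b ∈ A, ∀ c ∈ A, a ≠ b → a ≠ c → b ≠ c → ¬ (a ∣ b ∧ a ∣ c)

open Classical in
/-- `f n`: the largest cardinality of an admissible subset of `{1, ..., n}`. -/
noncomputable def f (n : ℕ) : ℕ :=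
  ((Finset.Icc 1 n).powerset.filter (fun A => Admissible A)).sup Finset.card

/-- `F x = 1 + ⌈a/2⌉ + ⌊log₃ (x / (1 + (a mod 2)))⌋` with `a = ⌊log₂ x⌋`. -/
def F (x : ℕ) : ℕ := 1 + (Nat.log 2 x + 1) / 2 + Nat.log 3 (x / (1 + Nat.log 2 x % 2))

/-- `lam n m = ⌊log₂ (3^j n / m)⌋` where `3^j` is the exact power of `3` dividing `m`. -/
def lam (n m : ℕ) : ℕ := Nat.log 2 (3 ^ padicValNat 3 m * n / m)

/-- The basic set (before repairs). -/
def A0 (n : ℕ) : Finset ℕ := (Finset.Icc 1 n).filter fun m =>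
  (n < 2 * m ∧ Even (lam n m)) ∨ (2 * m ≤ n ∧ n < 4 * m) ∨
    (4 * m ≤ n ∧ n < 6 * m ∧ Odd (lam n m))

/-- The exceptional set. -/
def exc (n : ℕ) : Finset ℕ := (Finset.Icc 1 n).filter fun u =>
  Odd u ∧ 10 * u ≤ n ∧ n < 12 * u ∧ Even (lam n u) ∧ Odd (lam n (5 * u))

/-- The integers in `[1, n]` coprime to `6`. -/
def rough (n : ℕ) : Finset ℕ := (Finset.Icc 1 n).filter fun r => Nat.Coprime r 6

/-- Planar admissibility for sets of exponent pairs. -/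
def PAdm (P : Finset (ℕ × ℕ)) : Prop :=
  ∀ a ∈ P, ∀ b ∈ P, ∀ c ∈ P, a ≠ b → a ≠ c → b ≠ c → ¬ (a ≤ b ∧ a ≤ c)

/-- `a_j = ⌊log₂ 3^j⌋`. -/
def aj (j : ℕ) : ℕ := Nat.log 2 (3 ^ j)

/-- `θ_j = 3^j / 2^{a_j}`. -/
noncomputable def th (j : ℕ) : ℝ := (3 : ℝ) ^ j / 2 ^ aj j

/-- The weights of the series for the limit. -/
noncomputable def w (j : ℕ) : ℝ :=
  if Even (aj j) then
    2 - th j + max 0 (th j / 4 - 1 / 3)
      - max 0 (min (1 / 10) (th j / 16) - max (1 / 12) (th j / 20))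
  else th j - 1 / 2 - max (1 / 3) (th j / 4)

/-- The limit of `f(n)/n`. -/
noncomputable def L : ℝ := 1 / 4 + ∑' j : ℕ, w j / 3 ^ (j + 1)

end Pool.Agent.Helper56.DivTwo
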