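import Pool.Agent.Helper56.DivTwo.Defs

/-!
Representation `m = 2^i 3^j r` with `r` coprime to `6`.
-/

namespace Pool.Agent.Helper56.DivTwo

open Finset

/-- The part of `m` coprime to `6`. -/
def rp (m : ℕ) : ℕ := m / (2 ^ padicValNat 2 m * 3 ^ padicValNat 3 m)

theorem exists_rep {m : ℕ} (hm : m ≠ 0) : ∃ i j r, Nat.Coprime r 6 ∧ m = 2 ^ i * 3 ^ j * r := by
  obtain ⟨i, m', h2, rfl⟩ := Nat.exists_eq_pow_mul_and_not_dvd hm 2 (by norm_num)
  have hm' : m' ≠ 0 := fun h => hm (by rw [h]; simp)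
  obtain ⟨j, r, h3, rfl⟩ := Nat.exists_eq_pow_mul_and_not_dvd hm' 3 (by norm_num)
  refine ⟨i, j, r, ?_, by ring⟩
  have h6 : (6 : ℕ) = 2 * 3 := by norm_num
  rw [h6, Nat.coprime_mul_iff_right]
  constructor
  · rw [Nat.coprime_comm, Nat.Prime.coprime_iff_not_dvd Nat.prime_two]
    exact fun h => h2 (Dvd.dvd.mul_left h _)
  · rw [Nat.coprime_comm, Nat.Prime.coprime_iff_not_dvd Nat.prime_three]
    exact h3

theorem coprime_two {r : ℕ} (h : Nat.Coprime r 6) : ¬ 2 ∣ r := by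
  intro h2
  have := Nat.Coprime.coprime_dvd_left h2 h
  norm_num at this

theorem coprime_three {r : ℕ} (h : Nat.Coprime r 6) : ¬ 3 ∣ r := by
  intro h2
  have := Nat.Coprime.coprime_dvd_left h2 h
  norm_num at this

theorem pos_of_coprime {r : ℕ} (h : Nat.Coprime r 6) : 0 < r := by
  rcases Nat.eq_zero_or_pos r with h0 | h0
  · rw [h0] at h; norm_num at h
  · exact h0

theorem v2_rep {i j r : ℕ} (h : Nat.Coprime r 6) : padicValNat 2 (2 ^ i * 3 ^ j * r) = i := by
  have hr := pos_of_coprime h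
  haveI : Fact (Nat.Prime 2) := ⟨Nat.prime_two⟩
  rw [padicValNat.mul (by positivity) (by omega), padicValNat.mul (by positivity) (by positivity),
    padicValNat.prime_pow, padicValNat.eq_zero_of_not_dvd (coprime_two h),
    padicValNat.eq_zero_of_not_dvd (n := 3 ^ j)]
  · rfl
  · intro h2
    have := Nat.Prime.dvd_of_dvd_pow Nat.prime_two h2
    norm_num at this

theorem v3_rep {i j r : ℕ} (h : Nat.Coprime r 6) : padicValNat 3 (2 ^ i * 3 ^ j * r) = j := by
  have hr := pos_of_coprime h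
  haveI : Fact (Nat.Prime 3) := ⟨Nat.prime_three⟩
  rw [padicValNat.mul (by positivity) (by omega), padicValNat.mul (by positivity) (by positivity),
    padicValNat.prime_pow, padicValNat.eq_zero_of_not_dvd (coprime_three h),
    padicValNat.eq_zero_of_not_dvd (n := 2 ^ i)]
  · omega
  · intro h2
    have := Nat.Prime.dvd_of_dvd_pow Nat.prime_three h2
    norm_num at this

theorem rp_rep {i j r : ℕ} (h : Nat.Coprime r 6) : rp (2 ^ i * 3 ^ j * r) = r := by
  unfold rp
  rw [v2_rep h, v3_rep h]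
  exact Nat.mul_div_cancel_left _ (by positivity)

theorem rep_rp {m : ℕ} (hm : m ≠ 0) :
    2 ^ padicValNat 2 m * 3 ^ padicValNat 3 m * rp m = m ∧ Nat.Coprime (rp m) 6 := by
  obtain ⟨i, j, r, hr, rfl⟩ := exists_rep hm
  rw [v2_rep hr, v3_rep hr, rp_rep hr]
  exact ⟨rfl, hr⟩

theorem log_div_pow (x i : ℕ) : Nat.log 2 (x / 2 ^ i) = Nat.log 2 x - i := by
  induction i with
  | zero => simp
  | succ k ih => rw [pow_succ, ← Nat.div_div_eq_div_mul, Nat.log_div_base, ih]; omega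

theorem lam_rep {n i j r : ℕ} (h : Nat.Coprime r 6) :
    lam n (2 ^ i * 3 ^ j * r) = Nat.log 2 (n / r) - i := by
  unfold lam
  rw [v3_rep h, ← log_div_pow, Nat.div_div_eq_div_mul]
  congr 1
  have e : 2 ^ i * 3 ^ j * r = 3 ^ j * (r * 2 ^ i) := by ring
  rw [e, Nat.mul_div_mul_left _ _ (by positivity)]

end Pool.Agent.Helper56.DivTwo
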