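import Pool.Agent.Helper56.DivTwo.Lam

/-!
The construction of a large admissible set.
-/

namespace Pool.Agent.Helper56.DivTwo

open Finset

/-- The conflicts of the basic set. -/
def Con (n m : ℕ) : Prop := 1 ≤ m ∧ 5 * m ≤ n ∧ n < 6 * m ∧ Odd (lam n m) ∧ Even (lam n (5 * m))

/-- The repaired tops. -/
def G (n g : ℕ) : Prop :=
  (∃ m, Con n m ∧ 4 ∣ m ∧ g = 5 * m) ∨
  (∃ m, Con n m ∧ 4 ∣ m ∧ 6 * g = 35 * m ∧ 4 ∣ g ∧ g ≤ n ∧ Even (lam n g))

/-- Removed elements. -/
def R (n x : ℕ) : Prop :=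
  (Con n x ∧ ¬ 2 ∣ x) ∨ (∃ m, Con n m ∧ 2 ∣ m ∧ ¬ 4 ∣ m ∧ x = 5 * m) ∨ G n x ∨ G n (2 * x)

/-- Added elements. -/
def S (n x : ℕ) : Prop :=
  (∃ m, Con n m ∧ ¬ 2 ∣ m ∧ x = 3 * m) ∨ G n (4 * x) ∨ G n (6 * x)

theorem odd_iff' {a : ℕ} : Odd a ↔ a % 2 = 1 := Nat.odd_iff
theorem even_iff' {a : ℕ} : Even a ↔ a % 2 = 0 := Nat.even_iff

theorem con_three {n m : ℕ} (h : Con n m) (h4 : 4 ∣ m) : 3 ∣ m := by
  obtain ⟨h1, h2, h3, h5, -⟩ := h
  by_contra hc
  unfold lam at h5
  have : Fact (Nat.Prime 3) := ⟨Nat.prime_three⟩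
  rw [padicValNat.eq_zero_of_not_dvd hc, pow_zero, one_mul] at h5
  have h6 : n / m = 5 := by
    apply Nat.div_eq_of_lt_le
    · rw [mul_comm]; omega
    · rw [mul_comm]; omega
  rw [h6, odd_iff'] at h5
  have : Nat.log 2 5 = 2 := by
    rw [Nat.log_eq_iff (Or.inl (by norm_num))]; norm_num
  rw [this] at h5
  omega

theorem con_nine {n m g : ℕ} (h : Con n m) (h4 : 4 ∣ m) (hg : 6 * g = 35 * m) (hgn : g ≤ n) :
    9 ∣ m := by
  have h3 := con_three h h4
  obtain ⟨h1, h2, h3', h5, -⟩ := h
  obtain ⟨k, rfl⟩ := h3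
  have hk : k ≠ 0 := by rintro rfl; omega
  by_contra hc
  have hk3 : ¬ 3 ∣ k := by
    rintro ⟨l, rfl⟩
    exact hc ⟨l, by ring⟩
  rw [lam_three hk] at h5
  unfold lam at h5
  have : Fact (Nat.Prime 3) := ⟨Nat.prime_three⟩
  rw [padicValNat.eq_zero_of_not_dvd hk3, pow_zero, one_mul] at h5
  have h6 : n / k = 17 := by
    apply Nat.div_eq_of_lt_le
    · rw [mul_comm]; omega
    · rw [mul_comm]; omega
  rw [h6, odd_iff'] at h5
  have : Nat.log 2 17 = 4 := by
    rw [Nat.log_eq_iff (Or.inl (by norm_num))]; norm_num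
  rw [this] at h5
  omega

/-- Data attached to a conflict `m = 12 b`. -/
theorem con_data {n m : ℕ} (h : Con n m) (h4 : 4 ∣ m) :
    ∃ b, 0 < b ∧ m = 12 * b ∧ lam n b % 2 = 1 ∧ lam n (5 * b) % 2 = 0 ∧
      lam n b = lam n (5 * b) + 3 := by
  have h3 := con_three h h4
  obtain ⟨h1, h2, h3', h5, h6⟩ := h
  have h12 : 12 ∣ m := by
    have := Nat.Coprime.mul_dvd_of_dvd_of_dvd (by norm_num : Nat.Coprime 4 3) h4 h3
    simpa using this
  obtain ⟨b, rfl⟩ := h12
  have hb : 0 < b := by omega
  refine ⟨b, hb, rfl, ?_⟩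
  -- lam (12 b) = lam (4 b)
  have e1 : lam n (12 * b) = lam n (4 * b) := by
    have e : 12 * b = 3 * (4 * b) := by ring
    rw [e, lam_three (by omega)]
  have e2 := lam_four (n := n) hb (by omega)
  have e3 : lam n (5 * (12 * b)) = lam n (4 * (5 * b)) := by
    have e : 5 * (12 * b) = 3 * (4 * (5 * b)) := by ring
    rw [e, lam_three (by omega)]
  have e4 := lam_four (n := n) (m := 5 * b) (by omega) (by omega)
  rw [e1, odd_iff'] at h5
  rw [e3, even_iff'] at h6
  have e5 := lam_five (n := n) hb (by omega)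
  refine ⟨by omega, by omega, by omega⟩

/-- Data attached to a repaired top. -/
theorem G_data {n g : ℕ} (h : G n g) :
    ∃ z, 0 < z ∧ g = 6 * z ∧ 2 ∣ z ∧ g ≤ n ∧ 5 * n < 6 * g ∧ lam n g % 2 = 0 ∧
      lam n z % 2 = 1 ∧ lam n (5 * z) % 2 = 1 ∧ (7 * z ≤ n → lam n (7 * z) % 2 = 0 → R n (7 * z)) := by
  rcases h with ⟨m, hm, h4, rfl⟩ | ⟨m, hm, h4, hg, hg4, hgn, hge⟩
  · obtain ⟨b, hb, rfl, w1, w2, w3⟩ := con_data hm h4
    have hm' := hm
    obtain ⟨h1, h2, h3, h5, h6⟩ := hm
    refine ⟨10 * b, by omega, by ring, ⟨5 * b, by ring⟩, h2, by omega, even_iff'.1 h6, ?_, ?_, ?_⟩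
    · -- lam (10 b)
      have e1 : 10 * b = 2 * (5 * b) := by ring
      have e2 := lam_two (n := n) (m := 5 * b) (by omega) (by omega)
      rw [← e1] at e2
      omega
    · -- lam (50 b)
      have e1 : 5 * (10 * b) = 2 * (25 * b) := by ring
      have e2 := lam_two (n := n) (m := 25 * b) (by omega) (by omega)
      have e3 := lam_wall25 (n := n) hb (by omega) w3
      rw [e1]
      omega
    · intro h70 hev
      have e1 : 7 * (10 * b) = 70 * b := by ring
      rw [e1] at h70 hev ⊢
      -- lam data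
      have e2 := lam_two (n := n) (m := 35 * b) (by omega) (by omega)
      have e2' : 2 * (35 * b) = 70 * b := by ring
      rw [e2'] at e2
      have e3 := lam_seven (n := n) (m := 5 * b) (by omega) (by omega)
      have e3' : 7 * (5 * b) = 35 * b := by ring
      rw [e3'] at e3
      have e4 := lam_seven (n := n) (m := b) hb (by omega)
      have e5 := lam_five (n := n) (m := 7 * b) (by omega) (by omega)
      have e5' : 5 * (7 * b) = 35 * b := by ring
      rw [e5'] at e5
      by_cases h4g : 4 ∣ 70 * b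
      · right; right; left; right
        exact ⟨12 * b, hm', h4, by ring, h4g, h70, even_iff'.2 hev⟩
      · right; left
        have e6 := lam_two (n := n) (m := 7 * b) (by omega) (by omega)
        have e6' : 2 * (7 * b) = 14 * b := by ring
        rw [e6'] at e6
        refine ⟨14 * b, ⟨by omega, by omega, by omega, ?_, ?_⟩, ?_, ?_, by ring⟩
        · rw [odd_iff']; omega
        · have e7 : 5 * (14 * b) = 70 * b := by ring
          rw [e7, even_iff']; exact hev
        · exact ⟨7 * b, by ring⟩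
        · intro h; apply h4g
          obtain ⟨k, hk⟩ := h
          exact ⟨5 * k, by omega⟩
  · have h9 := con_nine hm h4 hg hgn
    obtain ⟨b, hb, rfl, w1, w2, w3⟩ := con_data hm h4
    have hgb : g = 70 * b := by omega
    subst hgb
    obtain ⟨h1, h2, h3, h5, h6⟩ := hm
    have h3b : 3 ∣ b := by
      obtain ⟨k, hk⟩ := h9
      have : 4 * b = 3 * k := by omega
      exact (Nat.Coprime.dvd_mul_left (by norm_num : Nat.Coprime 3 4)).1 ⟨k, this⟩
    have h2b : 2 ∣ b := by
      obtain ⟨k, hk⟩ := hg4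
      omega
    obtain ⟨c, rfl⟩ := h3b
    have h2c : 2 ∣ c := by omega
    have hc : 0 < c := by omega
    -- lam data
    have ev : lam n (70 * (3 * c)) % 2 = 0 := even_iff'.1 hge
    have e2 := lam_two (n := n) (m := 35 * (3 * c)) (by omega) (by omega)
    have e2' : 2 * (35 * (3 * c)) = 70 * (3 * c) := by ring
    rw [e2'] at e2
    have e3 := lam_seven (n := n) (m := 5 * (3 * c)) (by omega) (by omega)
    have e3' : 7 * (5 * (3 * c)) = 35 * (3 * c) := by ring
    rw [e3'] at e3
    have e35 : lam n (35 * (3 * c)) = lam n (35 * c) := by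
      have e : 35 * (3 * c) = 3 * (35 * c) := by ring
      rw [e, lam_three (by omega)]
    have w6 : lam n (3 * c) = lam n (35 * (3 * c)) + 6 := by omega
    have e175 : lam n (5 * (35 * c)) = lam n (175 * (3 * c)) := by
      have e : 175 * (3 * c) = 3 * (5 * (35 * c)) := by ring
      rw [e, lam_three (by omega)]
    have hN : 175 * (3 * c) ≤ 3 ^ padicValNat 3 (3 * c) * n := by
      rw [v3_three (by omega), pow_succ]
      have h8 : 1 ≤ 3 ^ padicValNat 3 c := Nat.one_le_pow _ _ (by norm_num)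
      calc 175 * (3 * c) ≤ 1 * 3 * n := by omega
        _ ≤ 3 ^ padicValNat 3 c * 3 * n := by gcongr
    have h175 := lam_wall175 (n := n) (m := 3 * c) (by omega) (by omega) hN w6
    refine ⟨35 * c, by omega, by ring, Dvd.dvd.mul_left h2c _, hgn, by omega, ev, by omega, ?_, ?_⟩
    · rw [e175]; omega
    · intro h7
      omega

theorem A0_iff {n x : ℕ} : x ∈ A0 n ↔ (1 ≤ x ∧ x ≤ n) ∧ ((n < 2 * x ∧ Even (lam n x)) ∨
    (2 * x ≤ n ∧ n < 4 * x) ∨ (4 * x ≤ n ∧ n < 6 * x ∧ Odd (lam n x))) := by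
  unfold A0; rw [Finset.mem_filter, Finset.mem_Icc]

/-- membership in the final set -/
def InA (n x : ℕ) : Prop := (x ∈ A0 n ∧ ¬ R n x) ∨ S n x

theorem InA_range {n x : ℕ} (h : InA n x) : 1 ≤ x ∧ x ≤ n ∧ 5 * n < 36 * x := by
  rcases h with ⟨h, -⟩ | h
  · rw [A0_iff] at h
    omega
  · rcases h with ⟨m, ⟨h1, h2, h3, -⟩, -, rfl⟩ | h | h
    · omega
    · obtain ⟨z, hz, e, -, h1, h2, -⟩ := G_data h
      omega
    · obtain ⟨z, hz, e, -, h1, h2, -⟩ := G_data h
      omega

/-- if `x` is in the final set and `n < 2x` and `3n < 5x`.. then `lam` is even and `x` is not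
removed -/
theorem InA_top {n x : ℕ} (h : InA n x) (h1 : n < 2 * x) :
    (lam n x % 2 = 0 ∧ ¬ R n x) ∨ ∃ m, Con n m ∧ ¬ 2 ∣ m ∧ x = 3 * m := by
  rcases h with ⟨h, hR⟩ | h
  · left
    rw [A0_iff] at h
    obtain ⟨-, h | h | h⟩ := h
    · exact ⟨even_iff'.1 h.2, hR⟩
    · omega
    · omega
  · rcases h with h | h | h
    · exact Or.inr h
    · obtain ⟨z, hz, e, -, h2, h3, -⟩ := G_data h
      omega
    · obtain ⟨z, hz, e, -, h2, h3, -⟩ := G_data h
      omega

/-- The main admissibility statement. -/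
theorem InA_mult {n z : ℕ} (hz : InA n z) :
    ∃ D, ∀ d, 2 ≤ d → InA n (d * z) → d = D := by
  obtain ⟨hz1, hzn, hz7⟩ := InA_range hz
  -- bounded multiples
  have hd7 : ∀ d, InA n (d * z) → d ≤ 7 := by
    intro d hd
    by_contra hc
    have h8 : 8 * z ≤ d * z := Nat.mul_le_mul_right _ (by omega)
    have := (InA_range hd).2.1
    omega
  rcases Nat.lt_or_ge n (3 * z) with r3 | r3
  · refine ⟨2, fun d hd2 hd => ?_⟩
    by_contra hne
    have h8 : 3 * z ≤ d * z := Nat.mul_le_mul_right _ (by omega)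
    have := (InA_range hd).2.1
    omega
  rcases Nat.lt_or_ge n (4 * z) with r4 | r4
  · -- 3z ≤ n < 4z
    have h2 : InA n (2 * z) → lam n z % 2 = 1 := by
      intro h
      rcases InA_top h (by omega) with ⟨h1, -⟩ | ⟨m, hm, hm2, e⟩
      · have := lam_two (n := n) hz1 (by omega)
        omega
      · omega
    have h3 : InA n (3 * z) → lam n z % 2 = 0 := by
      intro h
      rcases InA_top h (by omega) with ⟨h1, -⟩ | ⟨m, hm, hm2, e⟩
      · rwa [lam_three (by omega)] at h1
      · obtain ⟨-, h5, -⟩ := hm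
        omega
    have hd3 : ∀ d, 2 ≤ d → InA n (d * z) → d = 2 ∨ d = 3 := by
      intro d hd2 hd
      by_contra hne
      have h8 : 4 * z ≤ d * z := Nat.mul_le_mul_right _ (by omega)
      have := (InA_range hd).2.1
      omega
    rcases Nat.mod_two_eq_zero_or_one (lam n z) with he | he
    · refine ⟨3, fun d hd2 hd => ?_⟩
      rcases hd3 d hd2 hd with rfl | rfl
      · have := h2 hd
        omega
      · rfl
    · refine ⟨2, fun d hd2 hd => ?_⟩
      rcases hd3 d hd2 hd with rfl | rfl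
      · rfl
      · have := h3 hd
        omega
  rcases Nat.lt_or_ge n (6 * z) with r6 | r6
  · -- 4z ≤ n < 6z
    have hd5 : ∀ d, InA n (d * z) → d ≤ 5 := by
      intro d hd
      by_contra hc
      have h8 : 6 * z ≤ d * z := Nat.mul_le_mul_right _ (by omega)
      have := (InA_range hd).2.1
      omega
    rcases hz with ⟨hA, hR⟩ | hS
    · -- old element
      rw [A0_iff] at hA
      have hodd : lam n z % 2 = 1 := by
        obtain ⟨-, h | h | h⟩ := hA
        · omega
        · omega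
        · exact odd_iff'.1 h.2.2
      refine ⟨2, fun d hd2 hd => ?_⟩
      have h5 := hd5 d hd
      have hcases : d = 2 ∨ d = 3 ∨ d = 4 ∨ d = 5 := by omega
      rcases hcases with rfl | rfl | rfl | rfl
      · rfl
      · exfalso
        rcases InA_top hd (by omega) with ⟨h1, -⟩ | ⟨m, hm, hm2, e⟩
        · rw [lam_three (by omega)] at h1
          omega
        · have : z = m := by omega
          subst this
          exact hR (Or.inl ⟨hm, hm2⟩)
      · exfalso
        rcases InA_top hd (by omega) with ⟨h1, -⟩ | ⟨m, hm, hm2, e⟩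
        · have := lam_four (n := n) hz1 r4
          omega
        · omega
      · exfalso
        have h5n := (InA_range hd).2.1
        rcases InA_top hd (by omega) with ⟨h1, hR5⟩ | ⟨m, hm, hm2, e⟩
        · have hcon : Con n z := ⟨hz1, h5n, r6, odd_iff'.2 hodd, even_iff'.2 h1⟩
          by_cases h2 : 2 ∣ z
          · by_cases h4 : 4 ∣ z
            · exact hR5 (Or.inr (Or.inr (Or.inl (Or.inl ⟨z, hcon, h4, rfl⟩))))
            · exact hR5 (Or.inr (Or.inl ⟨z, hcon, h2, h4, rfl⟩))
          · exact hR (Or.inl ⟨hcon, h2⟩)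
        · obtain ⟨-, h6, -⟩ := hm
          omega
    · -- new element: z = g/4
      have hG : G n (4 * z) := by
        rcases hS with ⟨m, ⟨h1, h2, h3, -⟩, -, rfl⟩ | h | h
        · omega
        · exact h
        · obtain ⟨y, hy, e, -, h1, -⟩ := G_data h
          omega
      obtain ⟨y, hy, e, h2y, hg1, hg2, hg3, hg4, hg5, -⟩ := G_data hG
      refine ⟨3, fun d hd2 hd => ?_⟩
      have h5 := hd5 d hd
      have hcases : d = 2 ∨ d = 3 ∨ d = 4 ∨ d = 5 := by omega
      rcases hcases with rfl | rfl | rfl | rfl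
      · exfalso
        have hR2 : R n (2 * z) := by
          right; right; right
          have e2 : 2 * (2 * z) = 4 * z := by ring
          rw [e2]; exact hG
        rcases hd with ⟨-, h⟩ | h
        · exact h hR2
        · rcases h with ⟨m, ⟨h1, h2, h3, -⟩, h2m, e2⟩ | h | h
          · omega
          · obtain ⟨y', hy', e', -, h1', -⟩ := G_data h
            omega
          · obtain ⟨y', hy', e', -, h1', -⟩ := G_data h
            omega
      · rfl
      · exfalso
        rcases InA_top hd (by omega) with ⟨-, h⟩ | ⟨m, hm, hm2, e2⟩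
        · exact h (Or.inr (Or.inr (Or.inl hG)))
        · omega
      · exfalso
        have h5n := (InA_range hd).2.1
        omega
  · -- 6z ≤ n : z = g/6
    have hG : G n (6 * z) := by
      rcases hz with ⟨hA, -⟩ | hS
      · rw [A0_iff] at hA
        omega
      · rcases hS with ⟨m, ⟨h1, h2, h3, -⟩, -, rfl⟩ | h | h
        · omega
        · obtain ⟨y, hy, e, -, h1, h2, -⟩ := G_data h
          omega
        · exact h
    obtain ⟨y, hy, e, h2y, hg1, hg2, hg3, hg4, hg5, hg7⟩ := G_data hG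
    have hyz : y = z := by omega
    subst hyz
    refine ⟨2, fun d hd2 hd => ?_⟩
    have h7 := hd7 d hd
    have hcases : d = 2 ∨ d = 3 ∨ d = 4 ∨ d = 5 ∨ d = 6 ∨ d = 7 := by omega
    rcases hcases with rfl | rfl | rfl | rfl | rfl | rfl
    · rfl
    · exfalso
      have hR3 : R n (3 * y) := by
        right; right; right
        have e2 : 2 * (3 * y) = 6 * y := by ring
        rw [e2]; exact hG
      rcases hd with ⟨-, h⟩ | h
      · exact h hR3
      · rcases h with ⟨m, ⟨h1, h2, h3, -⟩, h2m, e2⟩ | h | h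
        · omega
        · obtain ⟨y', hy', e', -, h1', -⟩ := G_data h
          omega
        · obtain ⟨y', hy', e', -, h1', -⟩ := G_data h
          omega
    · exfalso
      rcases InA_top hd (by omega) with ⟨h1, -⟩ | ⟨m, hm, hm2, e2⟩
      · have := lam_four (n := n) (m := y) hy (by omega)
        omega
      · omega
    · exfalso
      rcases InA_top hd (by omega) with ⟨h1, -⟩ | ⟨m, hm, hm2, e2⟩
      · omega
      · obtain ⟨-, h6, -⟩ := hm
        omega
    · exfalso
      rcases InA_top hd (by omega) with ⟨-, h⟩ | ⟨m, hm, hm2, e2⟩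
      · exact h (Or.inr (Or.inr (Or.inl hG)))
      · omega
    · exfalso
      have h7n := (InA_range hd).2.1
      rcases InA_top hd (by omega) with ⟨h1, hR7⟩ | ⟨m, hm, hm2, e2⟩
      · exact hR7 (hg7 h7n h1)
      · obtain ⟨-, h6, -⟩ := hm
        omega

end Pool.Agent.Helper56.DivTwo
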