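import Pool.Agent.Helper56.DivTwo.Constr

/-!
The lower bound: cardinality of the construction.
-/

namespace Pool.Agent.Helper56.DivTwo

open Finset

theorem mem_exc' {n u : ℕ} : u ∈ exc n ↔ (1 ≤ u ∧ u ≤ n) ∧ Odd u ∧ 10 * u ≤ n ∧ n < 12 * u ∧
    Even (lam n u) ∧ Odd (lam n (5 * u)) := by
  unfold exc; rw [Finset.mem_filter, Finset.mem_Icc]

theorem S_not_A0 {n x : ℕ} (h : S n x) : x ∉ A0 n := by
  rw [A0_iff]
  rintro ⟨⟨hx1, hxn⟩, hx⟩
  rcases h with ⟨m, ⟨h1, h2, h3, h4, h5⟩, -, rfl⟩ | h | h
  · rw [lam_three (by omega)] at hx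
    rw [odd_iff'] at h4
    rw [even_iff'] at hx
    omega
  · obtain ⟨z, hz, e, -, h1, h2, h3, -⟩ := G_data h
    have h4 := lam_four (n := n) (m := x) hx1 h1
    rcases hx with hx | hx | hx
    · omega
    · omega
    · have := odd_iff'.1 hx.2.2
      omega
  · obtain ⟨z, hz, e, -, h1, h2, h3, -⟩ := G_data h
    omega

theorem exists_large (n : ℕ) :
    ∃ A ⊆ Finset.Icc 1 n, Admissible A ∧ #(A0 n) ≤ #A + #(exc n) := by
  classical
  set A : Finset ℕ := (Finset.Icc 1 n).filter (InA n) with hA
  have memA : ∀ x, x ∈ A ↔ InA n x := by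
    intro x
    rw [hA, Finset.mem_filter, Finset.mem_Icc]
    constructor
    · exact fun h => h.2
    · intro h
      have := InA_range h
      exact ⟨by omega, h⟩
  refine ⟨A, Finset.filter_subset _ _, ?_, ?_⟩
  · intro a ha b hb c hc hab hac hbc hdvd
    rw [memA] at ha hb hc
    obtain ⟨D, hD⟩ := InA_mult ha
    obtain ⟨⟨d, rfl⟩, ⟨e, rfl⟩⟩ := hdvd
    have hb1 := (InA_range hb).1
    have hc1 := (InA_range hc).1
    have hd : d = D := by
      apply hD d
      · by_contra hcon
        have hd' : d = 0 ∨ d = 1 := by omega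
        rcases hd' with rfl | rfl
        · simp at hb1
        · simp at hab
      · rwa [mul_comm]
    have he : e = D := by
      apply hD e
      · by_contra hcon
        have hd' : e = 0 ∨ e = 1 := by omega
        rcases hd' with rfl | rfl
        · simp at hc1
        · simp at hac
      · rwa [mul_comm]
    exact hbc (by rw [hd, he])
  · -- cardinalities
    set R1 := (Finset.Icc 1 n).filter fun x => Con n x ∧ ¬ 2 ∣ x with hR1
    set R2 := (Finset.Icc 1 n).filter fun x => ∃ m, Con n m ∧ 2 ∣ m ∧ ¬ 4 ∣ m ∧ x = 5 * m with hR2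
    set R3 := (Finset.Icc 1 n).filter fun x => G n x with hR3
    set R4 := (Finset.Icc 1 n).filter fun x => G n (2 * x) with hR4
    set S1 := (Finset.Icc 1 n).filter fun x => ∃ m, Con n m ∧ ¬ 2 ∣ m ∧ x = 3 * m with hS1
    set S3 := (Finset.Icc 1 n).filter fun x => G n (4 * x) with hS3
    set S4 := (Finset.Icc 1 n).filter fun x => G n (6 * x) with hS4
    have c1 : #R1 ≤ #S1 := by
      apply Finset.card_le_card_of_injOn (3 * ·)
      · intro x hx
        rw [Finset.mem_coe, hR1, Finset.mem_filter] at hx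
        obtain ⟨hx1, hx2, hx3⟩ := hx
        have hx2' := hx2
        obtain ⟨h1, h2, h3, -⟩ := hx2
        rw [Finset.mem_coe, hS1, Finset.mem_filter, Finset.mem_Icc]
        simp only
        exact ⟨by omega, x, hx2', hx3, rfl⟩
      · intro x _ y _ e
        simp only at e
        omega
    have c2 : #R2 ≤ #(exc n) := by
      apply Finset.card_le_card_of_injOn (· / 10)
      · intro x hx
        rw [Finset.mem_coe, hR2, Finset.mem_filter] at hx
        obtain ⟨hx1, m, ⟨h1, h2, h3, h4, h5⟩, ⟨u, rfl⟩, hx3, rfl⟩ := hx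
        have e : 5 * (2 * u) / 10 = u := by omega
        rw [Finset.mem_coe]
        simp only [e]
        rw [mem_exc']
        have hu : 0 < u := by omega
        have e1 := lam_two (n := n) hu (by omega)
        have e2 := lam_two (n := n) (m := 5 * u) (by omega) (by omega)
        have e3 : 2 * (5 * u) = 5 * (2 * u) := by ring
        rw [e3] at e2
        rw [odd_iff'] at h4
        rw [even_iff'] at h5
        refine ⟨by omega, ?_, by omega, by omega, ?_, ?_⟩
        · rw [odd_iff']
          by_contra hcon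
          exact hx3 ⟨u / 2, by omega⟩
        · rw [even_iff']; omega
        · rw [odd_iff']; omega
      · intro x hx y hy e
        rw [Finset.mem_coe, hR2, Finset.mem_filter] at hx hy
        obtain ⟨-, m, -, ⟨u, rfl⟩, -, rfl⟩ := hx
        obtain ⟨-, m', -, ⟨u', rfl⟩, -, rfl⟩ := hy
        simp only at e
        omega
    have c3 : #R3 ≤ #S3 := by
      apply Finset.card_le_card_of_injOn (· / 4)
      · intro x hx
        rw [Finset.mem_coe, hR3, Finset.mem_filter] at hx
        obtain ⟨hx1, hx2⟩ := hx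
        obtain ⟨z, hz, e, ⟨k, hk⟩, h1, -⟩ := G_data hx2
        have e4 : 4 * (x / 4) = x := by omega
        rw [Finset.mem_coe, hS3, Finset.mem_filter, Finset.mem_Icc]
        simp only
        rw [e4]
        exact ⟨by omega, hx2⟩
      · intro x hx y hy e
        rw [Finset.mem_coe, hR3, Finset.mem_filter] at hx hy
        obtain ⟨z, hz, e1, ⟨k, hk⟩, h1, -⟩ := G_data hx.2
        obtain ⟨z', hz', e1', ⟨k', hk'⟩, h1', -⟩ := G_data hy.2
        simp only at e
        omega
    have c4 : #R4 ≤ #S4 := by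
      apply Finset.card_le_card_of_injOn (· / 3)
      · intro x hx
        rw [Finset.mem_coe, hR4, Finset.mem_filter] at hx
        obtain ⟨hx1, hx2⟩ := hx
        obtain ⟨z, hz, e, ⟨k, hk⟩, h1, -⟩ := G_data hx2
        have e4 : 6 * (x / 3) = 2 * x := by omega
        rw [Finset.mem_coe, hS4, Finset.mem_filter, Finset.mem_Icc]
        simp only
        rw [e4]
        exact ⟨by omega, hx2⟩
      · intro x hx y hy e
        rw [Finset.mem_coe, hR4, Finset.mem_filter] at hx hy
        obtain ⟨z, hz, e1, ⟨k, hk⟩, h1, -⟩ := G_data hx.2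
        obtain ⟨z', hz', e1', ⟨k', hk'⟩, h1', -⟩ := G_data hy.2
        simp only at e
        omega
    -- disjointness of the added sets
    have d13 : Disjoint S1 S3 := by
      rw [Finset.disjoint_left]
      intro x hx hy
      rw [hS1, Finset.mem_filter] at hx
      rw [hS3, Finset.mem_filter] at hy
      obtain ⟨-, m, ⟨h1, h2, h3, -⟩, -, e⟩ := hx
      obtain ⟨z, hz, e1, -, h4, -⟩ := G_data hy.2
      omega
    have d14 : Disjoint (S1 ∪ S3) S4 := by
      rw [Finset.disjoint_left]
      intro x hx hy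
      rw [hS4, Finset.mem_filter] at hy
      obtain ⟨z, hz, e1, -, h4, h5, -⟩ := G_data hy.2
      rw [Finset.mem_union, hS1, hS3, Finset.mem_filter, Finset.mem_filter] at hx
      rcases hx with ⟨-, m, ⟨h1, h2, h3, -⟩, -, e⟩ | ⟨-, hx⟩
      · omega
      · obtain ⟨z', hz', e1', -, h4', h5', -⟩ := G_data hx
        omega
    have hsub : S1 ∪ S3 ∪ S4 ⊆ A \ A0 n := by
      intro x hx
      have hS : S n x := by
        rw [Finset.mem_union, Finset.mem_union, hS1, hS3, hS4, Finset.mem_filter,
          Finset.mem_filter, Finset.mem_filter] at hx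
        rcases hx with (hx | hx) | hx
        · exact Or.inl hx.2
        · exact Or.inr (Or.inl hx.2)
        · exact Or.inr (Or.inr hx.2)
      rw [Finset.mem_sdiff, memA]
      exact ⟨Or.inr hS, S_not_A0 hS⟩
    have hsub2 : A0 n \ A ⊆ R1 ∪ R2 ∪ (R3 ∪ R4) := by
      intro x hx
      rw [Finset.mem_sdiff, memA] at hx
      obtain ⟨hx1, hx2⟩ := hx
      have hR : R n x := by
        by_contra hcon
        exact hx2 (Or.inl ⟨hx1, hcon⟩)
      have hxI : x ∈ Finset.Icc 1 n := by
        rw [A0_iff] at hx1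
        rw [Finset.mem_Icc]; exact hx1.1
      rw [Finset.mem_union, Finset.mem_union, Finset.mem_union, hR1, hR2, hR3, hR4,
        Finset.mem_filter, Finset.mem_filter, Finset.mem_filter, Finset.mem_filter]
      rcases hR with h | h | h | h
      · exact Or.inl (Or.inl ⟨hxI, h⟩)
      · exact Or.inl (Or.inr ⟨hxI, h⟩)
      · exact Or.inr (Or.inl ⟨hxI, h⟩)
      · exact Or.inr (Or.inr ⟨hxI, h⟩)
    have e1 : #(A0 n \ A) + #(A0 n ∩ A) = #(A0 n) := Finset.card_sdiff_add_card_inter _ _
    have e2 : #(A \ A0 n) + #(A ∩ A0 n) = #A := Finset.card_sdiff_add_card_inter _ _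
    rw [Finset.inter_comm] at e2
    have e3 := Finset.card_le_card hsub
    rw [Finset.card_union_of_disjoint d14, Finset.card_union_of_disjoint d13] at e3
    have e4 := Finset.card_le_card hsub2
    have e5 := Finset.card_union_le (R1 ∪ R2) (R3 ∪ R4)
    have e6 := Finset.card_union_le R1 R2
    have e7 := Finset.card_union_le R3 R4
    omega

end Pool.Agent.Helper56.DivTwo
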