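import Pool.Agent.Helper56.DivTwo.Upper
import Pool.Agent.Helper56.DivTwo.Lower
import Pool.Agent.Helper14.DivTwoLim
import Pool.Agent.Helper15.DivTwoNum
import Pool.Agent.Helper93.DivTwoCount

/-!
Assembly: the exact value of `f n` and its asymptotics.
-/

namespace Pool.Agent.Helper56.DivTwo

open Finset Filter Topology

theorem card_le_f {n : ℕ} {A : Finset ℕ} (hA : A ⊆ Finset.Icc 1 n) (h : Admissible A) :
    #A ≤ f n := by
  classical
  apply Finset.le_sup (f := Finset.card)
  rw [Finset.mem_filter, Finset.mem_powerset]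
  exact ⟨hA, h⟩

theorem exists_f (n : ℕ) : ∃ A ⊆ Finset.Icc 1 n, Admissible A ∧ #A = f n := by
  classical
  have hne : ((Finset.Icc 1 n).powerset.filter (fun A => Admissible A)).Nonempty :=
    ⟨∅, by
      rw [Finset.mem_filter, Finset.mem_powerset]
      refine ⟨Finset.empty_subset _, ?_⟩
      intro a ha
      simp at ha⟩
  obtain ⟨A, hA, hmax⟩ := Finset.exists_mem_eq_sup _ hne Finset.card
  rw [Finset.mem_filter, Finset.mem_powerset] at hA
  exact ⟨A, hA.1, hA.2, hmax.symm⟩

theorem f_add_exc (n : ℕ) : f n + #(exc n) = #(A0 n) := by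
  apply le_antisymm
  · obtain ⟨A, hA, hadm, hc⟩ := exists_f n
    rw [← hc, ← sum_F_eq]
    exact upper hA hadm
  · obtain ⟨A, hA, hadm, hc⟩ := exists_large n
    have := card_le_f hA hadm
    omega

theorem tendsto_f : Tendsto (fun n : ℕ => (f n : ℝ) / n) atTop (𝓝 L) := by
  refine tendsto_A0_exc.congr ?_
  intro n
  have h := f_add_exc n
  have h' : (f n : ℝ) + #(exc n) = #(A0 n) := by exact_mod_cast h
  rw [← h']
  ring

theorem card_zone (n : ℕ) : #(zone n) = #(exc n) := by
  classical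
  apply le_antisymm _ (card_exc_le n)
  apply Finset.card_le_card_of_surjOn rp
  intro r hr
  rw [Finset.mem_coe] at hr
  unfold zone rough at hr
  rw [Finset.mem_filter, Finset.mem_filter, Finset.mem_Icc] at hr
  obtain ⟨⟨⟨hr1, hrn⟩, hr6⟩, ⟨g, h10, h12⟩, he, ho⟩ := hr
  have h5 : Nat.Coprime (5 * r) 6 := Nat.Coprime.mul_left (by norm_num) hr6
  have e0 : 3 ^ g * r = 2 ^ 0 * 3 ^ g * r := by ring
  refine ⟨3 ^ g * r, ?_, ?_⟩
  · rw [Finset.mem_coe, mem_exc]
    have hpos : 0 < 3 ^ g * r := by positivity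
    have h10' : 10 * (3 ^ g * r) ≤ n := by linarith [h10]
    have h12' : n < 12 * (3 ^ g * r) := by linarith [h12]
    have e5 : 5 * (3 ^ g * r) = 2 ^ 0 * 3 ^ g * (5 * r) := by ring
    refine ⟨⟨hpos, by omega⟩, ?_, h10', h12', ?_, ?_⟩
    · have h2 := coprime_two hr6
      have h3 : Odd r := by
        rw [Nat.odd_iff]; omega
      exact (Odd.pow (by decide : Odd 3)).mul h3
    · rw [e0, lam_rep hr6, Nat.sub_zero]; exact he
    · rw [e5, lam_rep h5, Nat.sub_zero]; exact ho
  · rw [e0]; exact rp_rep hr6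

theorem exact_formula (n : ℕ) : f n + #(zone n) = ∑ r ∈ rough n, F (n / r) := by
  rw [card_zone, f_add_exc, sum_F_eq]

end Pool.Agent.Helper56.DivTwo
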