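import Pool.Agent.Helper56.DivTwo.Defs

/-!
Arithmetic of `lam`.
-/

namespace Pool.Agent.Helper56.DivTwo

open Finset

theorem v3_mul {c m : ℕ} (hm : m ≠ 0) (hc : ¬ 3 ∣ c) : padicValNat 3 (c * m) = padicValNat 3 m := by
  have : Fact (Nat.Prime 3) := ⟨Nat.prime_three⟩
  have hc0 : c ≠ 0 := fun h => hc (by rw [h]; exact dvd_zero _)
  rw [padicValNat.mul hc0 hm, padicValNat.eq_zero_of_not_dvd hc, zero_add]

theorem v3_three {m : ℕ} (hm : m ≠ 0) : padicValNat 3 (3 * m) = padicValNat 3 m + 1 := by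
  have : Fact (Nat.Prime 3) := ⟨Nat.prime_three⟩
  rw [padicValNat.mul (by norm_num) hm, padicValNat.self (by norm_num)]
  ring

theorem lam_three {n m : ℕ} (hm : m ≠ 0) : lam n (3 * m) = lam n m := by
  unfold lam
  rw [v3_three hm]
  congr 1
  have e : 3 ^ (padicValNat 3 m + 1) * n = 3 * (3 ^ padicValNat 3 m * n) := by ring
  rw [e, Nat.mul_div_mul_left _ _ (by norm_num)]

/-- `Sp N x k`: `k = ⌊log₂ (N/x)⌋`. -/
def Sp (N x k : ℕ) : Prop := 2 ^ k * x ≤ N ∧ N < 2 * (2 ^ k * x)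

theorem sp_log {N x : ℕ} (hx : 0 < x) (h : x ≤ N) : Sp N x (Nat.log 2 (N / x)) := by
  have h1 : 1 ≤ N / x := Nat.div_pos h hx
  constructor
  · calc 2 ^ Nat.log 2 (N / x) * x ≤ (N / x) * x :=
        Nat.mul_le_mul_right _ (Nat.pow_log_le_self 2 (by omega))
      _ ≤ N := Nat.div_mul_le_self N x
  · have h2 : N / x < 2 ^ (Nat.log 2 (N / x) + 1) := Nat.lt_pow_succ_log_self (by norm_num) _
    rw [Nat.div_lt_iff_lt_mul hx] at h2
    calc N < 2 ^ (Nat.log 2 (N / x) + 1) * x := h2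
      _ = 2 * (2 ^ Nat.log 2 (N / x) * x) := by ring

theorem sp_lam {n m : ℕ} (hm : 0 < m) (h : m ≤ 3 ^ padicValNat 3 m * n) :
    Sp (3 ^ padicValNat 3 m * n) m (lam n m) := sp_log hm h

theorem pw_le {a b c x : ℕ} (h : a ≤ b + c) : 2 ^ a * x ≤ 2 ^ c * (2 ^ b * x) := by
  calc 2 ^ a * x ≤ 2 ^ (b + c) * x :=
        Nat.mul_le_mul_right _ (Nat.pow_le_pow_right (by norm_num) h)
    _ = 2 ^ c * (2 ^ b * x) := by ring

theorem le_pw {a b c x : ℕ} (h : b + c ≤ a) : 2 ^ c * (2 ^ b * x) ≤ 2 ^ a * x := by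
  calc 2 ^ c * (2 ^ b * x) = 2 ^ (b + c) * x := by ring
    _ ≤ 2 ^ a * x := Nat.mul_le_mul_right _ (Nat.pow_le_pow_right (by norm_num) h)

theorem sp_two {N x a k : ℕ} (hx : 0 < x) (ha : Sp N x a) (hk : Sp N (2 * x) k) : a = k + 1 := by
  obtain ⟨a1, a2⟩ := ha
  obtain ⟨k1, k2⟩ := hk
  have e : 2 ^ k * (2 * x) = 2 * (2 ^ k * x) := by ring
  rw [e] at k1 k2
  have hp : 0 < 2 ^ k * x := by positivity
  have hq : 0 < 2 ^ a * x := by positivity
  by_contra hne
  rcases Nat.lt_or_gt_of_ne hne with h | h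
  · have h1 := pw_le (x := x) (a := a) (b := k) (c := 0) (by omega)
    norm_num at h1
    omega
  · have h1 := le_pw (x := x) (a := a) (b := k) (c := 2) (by omega)
    norm_num at h1
    omega

/-- difference of logs for multiplication by `5`. -/
theorem sp_five {N x a k : ℕ} (hx : 0 < x) (ha : Sp N x a) (hk : Sp N (5 * x) k) :
    a = k + 2 ∨ a = k + 3 := by
  obtain ⟨a1, a2⟩ := ha
  obtain ⟨k1, k2⟩ := hk
  have e : 2 ^ k * (5 * x) = 5 * (2 ^ k * x) := by ring
  rw [e] at k1 k2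
  have hp : 0 < 2 ^ k * x := by positivity
  by_contra hne
  rcases Nat.lt_or_ge a (k + 2) with h | h
  · have h1 := pw_le (x := x) (a := a) (b := k) (c := 1) (by omega)
    norm_num at h1
    omega
  · have h1 := le_pw (x := x) (a := a) (b := k) (c := 4) (by omega)
    norm_num at h1
    omega

/-- difference of logs for multiplication by `7`. -/
theorem sp_seven {N x a k : ℕ} (hx : 0 < x) (ha : Sp N x a) (hk : Sp N (7 * x) k) :
    a = k + 2 ∨ a = k + 3 := by
  obtain ⟨a1, a2⟩ := ha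
  obtain ⟨k1, k2⟩ := hk
  have e : 2 ^ k * (7 * x) = 7 * (2 ^ k * x) := by ring
  rw [e] at k1 k2
  have hp : 0 < 2 ^ k * x := by positivity
  by_contra hne
  rcases Nat.lt_or_ge a (k + 2) with h | h
  · have h1 := pw_le (x := x) (a := a) (b := k) (c := 1) (by omega)
    norm_num at h1
    omega
  · have h1 := le_pw (x := x) (a := a) (b := k) (c := 4) (by omega)
    norm_num at h1
    omega

/-- no two consecutive walls. -/
theorem sp_wall25 {N x b k : ℕ} (hx : 0 < x) (ha : Sp N x (b + 3)) (hb : Sp N (5 * x) b)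
    (hk : Sp N (25 * x) k) : b = k + 2 := by
  obtain ⟨a1, a2⟩ := ha
  obtain ⟨b1, b2⟩ := hb
  obtain ⟨k1, k2⟩ := hk
  have e : 2 ^ k * (25 * x) = 25 * (2 ^ k * x) := by ring
  have e' : 2 ^ b * (5 * x) = 5 * (2 ^ b * x) := by ring
  have e'' : 2 ^ (b + 3) * x = 8 * (2 ^ b * x) := by ring
  rw [e] at k1 k2
  rw [e'] at b1 b2
  rw [e''] at a1 a2
  have hp : 0 < 2 ^ k * x := by positivity
  by_contra hne
  rcases Nat.lt_or_gt_of_ne hne with h | h
  · have h1 := pw_le (x := x) (a := b) (b := k) (c := 1) (by omega)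
    norm_num at h1
    omega
  · have h1 := le_pw (x := x) (a := b) (b := k) (c := 3) (by omega)
    norm_num at h1
    omega

/-- no wall after two walls. -/
theorem sp_wall175 {N x t k : ℕ} (hx : 0 < x) (ha : Sp N x (t + 6)) (ht : Sp N (35 * x) t)
    (hk : Sp N (175 * x) k) : t = k + 2 := by
  obtain ⟨a1, a2⟩ := ha
  obtain ⟨b1, b2⟩ := ht
  obtain ⟨k1, k2⟩ := hk
  have e : 2 ^ k * (175 * x) = 175 * (2 ^ k * x) := by ring
  have e' : 2 ^ t * (35 * x) = 35 * (2 ^ t * x) := by ring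
  have e'' : 2 ^ (t + 6) * x = 64 * (2 ^ t * x) := by ring
  rw [e] at k1 k2
  rw [e'] at b1 b2
  rw [e''] at a1 a2
  have hp : 0 < 2 ^ k * x := by positivity
  by_contra hne
  rcases Nat.lt_or_gt_of_ne hne with h | h
  · have h1 := pw_le (x := x) (a := t) (b := k) (c := 1) (by omega)
    norm_num at h1
    omega
  · have h1 := le_pw (x := x) (a := t) (b := k) (c := 3) (by omega)
    norm_num at h1
    omega

/-- the spec of `lam n (c * m)` with the common `N = 3^(v m) n`. -/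
theorem sp_lam_mul {n m c : ℕ} (hm : 0 < m) (hc : ¬ 3 ∣ c)
    (h : c * m ≤ 3 ^ padicValNat 3 m * n) :
    Sp (3 ^ padicValNat 3 m * n) (c * m) (lam n (c * m)) := by
  have hc0 : 0 < c := Nat.pos_of_ne_zero fun h => hc (by rw [h]; exact dvd_zero _)
  have h1 := v3_mul (c := c) (m := m) (by omega) hc
  have h2 := sp_lam (n := n) (m := c * m) (by positivity) (by rw [h1]; exact h)
  rw [h1] at h2
  exact h2

theorem le_N {n m k : ℕ} (h : k ≤ n) : k ≤ 3 ^ padicValNat 3 m * n :=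
  h.trans (Nat.le_mul_of_pos_left _ (by positivity))

theorem lam_two {n m : ℕ} (hm : 0 < m) (h : 2 * m ≤ n) : lam n m = lam n (2 * m) + 1 :=
  sp_two hm (sp_lam hm (le_N (by omega))) (sp_lam_mul hm (by norm_num) (le_N h))

theorem lam_four {n m : ℕ} (hm : 0 < m) (h : 4 * m ≤ n) : lam n m = lam n (4 * m) + 2 := by
  have h1 := lam_two hm (show 2 * m ≤ n by omega)
  have h2 := lam_two (n := n) (m := 2 * m) (by omega) (by omega)
  have e : 2 * (2 * m) = 4 * m := by ring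
  rw [e] at h2
  omega

theorem lam_five {n m : ℕ} (hm : 0 < m) (h : 5 * m ≤ n) :
    lam n m = lam n (5 * m) + 2 ∨ lam n m = lam n (5 * m) + 3 :=
  sp_five hm (sp_lam hm (le_N (by omega))) (sp_lam_mul hm (by norm_num) (le_N h))

theorem lam_seven {n m : ℕ} (hm : 0 < m) (h : 7 * m ≤ n) :
    lam n m = lam n (7 * m) + 2 ∨ lam n m = lam n (7 * m) + 3 :=
  sp_seven hm (sp_lam hm (le_N (by omega))) (sp_lam_mul hm (by norm_num) (le_N h))

theorem lam_wall25 {n m : ℕ} (hm : 0 < m) (h : 25 * m ≤ n)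
    (hw : lam n m = lam n (5 * m) + 3) : lam n (5 * m) = lam n (25 * m) + 2 := by
  have h1 := sp_lam (n := n) hm (le_N (by omega))
  rw [hw] at h1
  exact sp_wall25 hm h1 (sp_lam_mul hm (by norm_num) (le_N (by omega)))
    (sp_lam_mul hm (by norm_num) (le_N h))

theorem lam_wall175 {n m : ℕ} (hm : 0 < m) (h35 : 35 * m ≤ n)
    (h : 175 * m ≤ 3 ^ padicValNat 3 m * n)
    (hw : lam n m = lam n (35 * m) + 6) : lam n (35 * m) = lam n (175 * m) + 2 := by
  have h1 := sp_lam (n := n) hm (le_N (by omega))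
  rw [hw] at h1
  exact sp_wall175 hm h1 (sp_lam_mul hm (by norm_num) (le_N h35))
    (sp_lam_mul hm (by norm_num) h)

end Pool.Agent.Helper56.DivTwo
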