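import Pool.Agent.Helper56.DivTwo.Plane

/-!
The pair bound: two neighbouring chains in the exceptional zone lose one element.
-/

namespace Pool.Agent.Helper56.DivTwo

open Finset

/-- Structure of an extremal set in the first chain. -/
theorem struct_first {P : Finset (ℕ × ℕ)} {x g : ℕ} (hP : PAdm P)
    (hle : ∀ p ∈ P, 2 ^ p.1 * 3 ^ p.2 ≤ x) (h10 : 10 * 3 ^ g ≤ x) (h12 : x < 12 * 3 ^ g)
    (he : Even (Nat.log 2 x)) (hc : F x ≤ #P) : (1, g) ∈ P ∧ (2, g) ∈ P := by
  have h3g : 1 ≤ 3 ^ g := Nat.one_le_pow _ _ (by norm_num)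
  have hx : 1 ≤ x := by omega
  have hlog3 : Nat.log 3 x = g + 2 := by
    rw [Nat.log_eq_iff (Or.inl (by omega))]
    constructor
    · rw [pow_add]; omega
    · rw [pow_add, pow_add]; omega
  have ha : 2 ≤ Nat.log 2 x := Nat.le_log_of_pow_le (by norm_num) (by omega)
  have h1 := card_eq hP
  have h2 := two_lows_le hP hx hle
  have h3 := nrows_le hx hle
  have e0 : Nat.log 2 x % 2 = 0 := Nat.even_iff.1 he
  have hF : F x = 1 + (Nat.log 2 x + 1) / 2 + (g + 2) := by
    unfold F
    rw [e0, Nat.add_zero, Nat.div_one, hlog3]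
  rw [hF] at hc
  rw [hlog3] at h3
  -- equality everywhere
  have hrows : #(P.image Prod.snd) = g + 3 := by omega
  have hlows : 2 * #(lows P) = Nat.log 2 x := by omega
  have hrows' : P.image Prod.snd = Finset.range (g + 3) := by
    apply Finset.eq_of_subset_of_card_le
    · have := rows_le hx hle
      rw [hlog3] at this
      exact this
    · rw [hrows]; simp
  have hrow : ∀ j, j < g + 3 → ∃ i, (i, j) ∈ P := by
    intro j hj
    have : j ∈ P.image Prod.snd := by rw [hrows']; simpa using hj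
    rw [Finset.mem_image] at this
    obtain ⟨p, hp, rfl⟩ := this
    exact ⟨p.1, hp⟩
  -- the top row is the element (0, g+2)
  have htop : (0, g + 2) ∈ P := by
    obtain ⟨i, hi⟩ := hrow (g + 2) (by omega)
    have h4 := hle _ hi
    simp only at h4
    rcases Nat.eq_zero_or_pos i with h0 | h0
    · rwa [h0] at hi
    · exfalso
      have h5 : 2 ^ 1 * 3 ^ (g + 2) ≤ 2 ^ i * 3 ^ (g + 2) :=
        Nat.mul_le_mul_right _ (Nat.pow_le_pow_right (by norm_num) h0)
      rw [pow_add] at h5
      rw [pow_add] at h4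
      omega
  -- exponent 0 is not used by full rows
  have hno0 : ∀ p ∈ lows P ∪ tops P, p.1 ≠ 0 := by
    intro p hp h0
    obtain ⟨l, hl, t, ht, e1, e2, e3, e4⟩ := row_of_mem hp
    have hpl : p = l := by
      rcases e4 with e4 | e4
      · exact e4
      · rw [← e4] at e3; omega
    have hlP : l ∈ P := (mem_lows.1 hl).1
    have htP : t ∈ P := (mem_tops.1 ht).1
    rw [hpl] at h0
    have hl2 : l.2 ≤ g + 2 := by
      have := snd_le_log hx hle hlP
      omega
    rcases Nat.lt_or_ge l.2 (g + 2) with h6 | h6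
    · exact low_zero hP hlP htP htop (by omega) e3 (by rw [h0]) h6
    · have h7 : t.2 = g + 2 := by omega
      have h8 := hle t htP
      have h5 : 2 ^ 1 * 3 ^ (g + 2) ≤ 2 ^ t.1 * 3 ^ t.2 := by
        rw [h7]
        exact Nat.mul_le_mul_right _ (Nat.pow_le_pow_right (by norm_num) (by omega))
      rw [pow_add] at h5
      omega
  -- all exponents from 1 to log 2 x are used
  have himg : (lows P ∪ tops P).image Prod.fst = Finset.Icc 1 (Nat.log 2 x) := by
    apply Finset.eq_of_subset_of_card_le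
    · intro i hi
      have hi' := exps_le hx hle hi
      rw [Finset.mem_range] at hi'
      rw [Finset.mem_image] at hi
      obtain ⟨p, hp, rfl⟩ := hi
      have := hno0 p hp
      rw [Finset.mem_Icc]
      omega
    · rw [Finset.card_image_of_injOn (injOn_fst hP), card_union hP, hlows]
      simp
  have hused : ∀ i, 1 ≤ i → i ≤ Nat.log 2 x → ∃ p ∈ lows P ∪ tops P, p.1 = i := by
    intro i h1 h2
    have : i ∈ (lows P ∪ tops P).image Prod.fst := by rw [himg]; simp [h1, h2]
    rw [Finset.mem_image] at this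
    exact this
  obtain ⟨p1, hp1, hp11⟩ := hused 1 le_rfl (by omega)
  obtain ⟨p2, hp2, hp21⟩ := hused 2 (by omega) ha
  obtain ⟨l, hl, t, ht, e1, e2, e3, e4⟩ := row_of_mem hp1
  have hlP : l ∈ P := (mem_lows.1 hl).1
  have htP : t ∈ P := (mem_tops.1 ht).1
  have hl0 := hno0 l (Finset.mem_union_left _ hl)
  have hp1l : p1 = l := by
    rcases e4 with e4 | e4
    · exact e4
    · rw [e4] at hp11; omega
  rw [hp1l] at hp11
  obtain ⟨l', hl', t', ht', e1', e2', e3', e4'⟩ := row_of_mem hp2
  have hlP' : l' ∈ P := (mem_lows.1 hl').1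
  have htP' : t' ∈ P := (mem_tops.1 ht').1
  have hl0' := hno0 l' (Finset.mem_union_left _ hl')
  have hp2P : p2 ∈ P := by
    rcases e4' with e | e <;> rw [e] <;> assumption
  -- p2 is in the row of l
  have hrow2 : p2.2 = l.2 := by
    rcases Nat.lt_trichotomy p2.2 l.2 with h6 | h6 | h6
    · exfalso
      -- l' below
      rcases e4' with e | e
      · -- p2 = l'
        rw [e] at hp21
        refine low_zero hP hlP' htP' htP (by omega) e3' (by omega) (by omega)
      · -- p2 = t'
        rw [e] at hp21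
        have h7 : l'.1 = 1 := by omega
        have h8 := injOn_fst hP (Finset.mem_coe.2 (Finset.mem_union_left (tops P) hl'))
          (Finset.mem_coe.2 (Finset.mem_union_left (tops P) hl)) (by rw [h7, hp11])
        rw [h8] at e1'
        omega
    · exact h6
    · exfalso
      exact low_zero hP hlP htP hp2P (by omega) e3 (by omega) h6
  have hp2t : p2 = t := by
    rcases e4' with e | e
    · exfalso
      have h8 := injOn_snd_lows hP (Finset.mem_coe.2 hl') (Finset.mem_coe.2 hl)
        (by omega)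
      rw [e, h8] at hp21
      omega
    · have h8 := injOn_snd_tops hP (Finset.mem_coe.2 ht') (Finset.mem_coe.2 ht)
        (by omega)
      rw [e, h8]
  rw [hp2t] at hp21
  have hl_eq : l = (1, l.2) := Prod.ext hp11 rfl
  have ht_eq : t = (2, l.2) := Prod.ext hp21 (by omega)
  -- l.2 ≤ g
  have hlg : l.2 ≤ g := by
    by_contra hcc
    have h6 := hle t htP
    rw [ht_eq] at h6
    simp only at h6
    have h7 : 3 ^ (g + 1) ≤ 3 ^ l.2 := Nat.pow_le_pow_right (by norm_num) (by omega)
    rw [pow_add] at h7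
    omega
  -- rows above l consist of exponent 0
  have habove : ∀ j, l.2 < j → j < g + 3 → (0, j) ∈ P := by
    intro j h6 h7
    obtain ⟨i, hi⟩ := hrow j h7
    rcases Nat.eq_zero_or_pos i with h0 | h0
    · rwa [h0] at hi
    · exact (low_zero hP hlP htP hi (by omega) e3 (by show l.1 ≤ i; omega) (by simpa using h6)).elim
  have hlg2 : l.2 = g := by
    by_contra hcc
    have h6 := habove g (by omega) (by omega)
    have h7 := habove (g + 1) (by omega) (by omega)
    have h8 := habove (g + 2) (by omega) (by omega)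
    refine hP _ h6 _ h7 _ h8 (by simp) (by simp) (by simp) ⟨?_, ?_⟩ <;> rw [le_iff'] <;> simp
  rw [hlg2] at hl_eq ht_eq
  rw [← hl_eq, ← ht_eq]
  exact ⟨hlP, htP⟩

/-- Structure of an extremal set in the second chain. -/
theorem struct_second {P : Finset (ℕ × ℕ)} {y g : ℕ} (hP : PAdm P)
    (hle : ∀ p ∈ P, 2 ^ p.1 * 3 ^ p.2 ≤ y) (h10 : 2 * 3 ^ g ≤ y) (h12 : y < 3 * 3 ^ g)
    (he : Odd (Nat.log 2 y)) (hc : F y ≤ #P) : (1, g) ∈ P := by
  have h3g : 1 ≤ 3 ^ g := Nat.one_le_pow _ _ (by norm_num)
  have hy : 1 ≤ y := by omega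
  have hlog3 : Nat.log 3 y = g := by
    rw [Nat.log_eq_iff (Or.inr ⟨by norm_num, by omega⟩)]
    constructor
    · omega
    · rw [pow_add]; omega
  have hlog3' : Nat.log 3 (y / 2) = g := by
    rw [Nat.log_eq_iff (Or.inr ⟨by norm_num, by omega⟩)]
    constructor
    · omega
    · rw [pow_add]; omega
  have e0 : Nat.log 2 y % 2 = 1 := Nat.odd_iff.1 he
  have hF : F y = 1 + (Nat.log 2 y + 1) / 2 + g := by
    unfold F
    rw [e0]
    norm_num
    exact hlog3'
  have h1 := card_eq hP
  have h2 := two_lows_le hP hy hle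
  have h3 := nrows_le hy hle
  rw [hF] at hc
  rw [hlog3] at h3
  have hrows : #(P.image Prod.snd) = g + 1 := by omega
  have hlows : 2 * #(lows P) = Nat.log 2 y + 1 := by omega
  have hrows' : P.image Prod.snd = Finset.range (g + 1) := by
    apply Finset.eq_of_subset_of_card_le
    · have := rows_le hy hle
      rw [hlog3] at this
      exact this
    · rw [hrows]; simp
  have hrow : ∀ j, j < g + 1 → ∃ i, (i, j) ∈ P := by
    intro j hj
    have : j ∈ P.image Prod.snd := by rw [hrows']; simpa using hj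
    rw [Finset.mem_image] at this
    obtain ⟨p, hp, rfl⟩ := this
    exact ⟨p.1, hp⟩
  have himg : (lows P ∪ tops P).image Prod.fst = Finset.range (Nat.log 2 y + 1) := by
    apply Finset.eq_of_subset_of_card_le (exps_le hy hle)
    rw [Finset.card_image_of_injOn (injOn_fst hP), card_union hP, hlows]
    simp
  have hused : ∀ i, i < Nat.log 2 y + 1 → ∃ p ∈ lows P ∪ tops P, p.1 = i := by
    intro i h1
    have : i ∈ (lows P ∪ tops P).image Prod.fst := by rw [himg]; simpa using h1
    rw [Finset.mem_image] at this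
    exact this
  obtain ⟨p1, hp1, hp11⟩ := hused 0 (by omega)
  obtain ⟨p2, hp2, hp21⟩ := hused 1 (by omega)
  obtain ⟨l, hl, t, ht, e1, e2, e3, e4⟩ := row_of_mem hp1
  have hlP : l ∈ P := (mem_lows.1 hl).1
  have htP : t ∈ P := (mem_tops.1 ht).1
  have hp1l : p1 = l := by
    rcases e4 with e4 | e4
    · exact e4
    · rw [e4] at hp11; omega
  rw [hp1l] at hp11
  obtain ⟨l', hl', t', ht', e1', e2', e3', e4'⟩ := row_of_mem hp2
  have hlP' : l' ∈ P := (mem_lows.1 hl').1
  have htP' : t' ∈ P := (mem_tops.1 ht').1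
  have hp2P : p2 ∈ P := by
    rcases e4' with e | e <;> rw [e] <;> assumption
  have hrow2 : p2.2 = l.2 := by
    rcases Nat.lt_trichotomy p2.2 l.2 with h6 | h6 | h6
    · exfalso
      rcases e4' with e | e
      · rw [e] at hp21
        refine low_zero hP hlP' htP' htP (by omega) e3' (by omega) (by omega)
      · rw [e] at hp21
        have h7 : l'.1 = 0 := by omega
        have h8 := injOn_fst hP (Finset.mem_coe.2 (Finset.mem_union_left (tops P) hl'))
          (Finset.mem_coe.2 (Finset.mem_union_left (tops P) hl)) (by rw [h7, hp11])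
        rw [h8] at e1'
        omega
    · exact h6
    · exfalso
      exact low_zero hP hlP htP hp2P (by omega) e3 (by omega) h6
  have hp2t : p2 = t := by
    rcases e4' with e | e
    · exfalso
      have h8 := injOn_snd_lows hP (Finset.mem_coe.2 hl') (Finset.mem_coe.2 hl)
        (by omega)
      rw [e, h8] at hp21
      omega
    · have h8 := injOn_snd_tops hP (Finset.mem_coe.2 ht') (Finset.mem_coe.2 ht)
        (by omega)
      rw [e, h8]
  rw [hp2t] at hp21
  have ht_eq : t = (1, l.2) := Prod.ext hp21 (by omega)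
  have hlg : l.2 = g := by
    have h5 := snd_le_log hy hle hlP
    rw [hlog3] at h5
    by_contra hcc
    obtain ⟨i, hi⟩ := hrow g (by omega)
    exact low_zero hP hlP htP hi (by omega) e3 (by simp [hp11]) (by simp; omega)
  rw [hlg] at ht_eq
  rw [← ht_eq]
  exact htP

/-- The pair bound. -/
theorem pair_lt {P Q : Finset (ℕ × ℕ)} {x g : ℕ} (hP : PAdm P) (hQ : PAdm Q)
    (hPle : ∀ p ∈ P, 2 ^ p.1 * 3 ^ p.2 ≤ x) (hQle : ∀ p ∈ Q, 2 ^ p.1 * 3 ^ p.2 ≤ x / 5)
    (cross : ∀ a ∈ P, ∀ b ∈ P, ∀ c ∈ Q, a ≠ b → ¬ (a ≤ b ∧ a ≤ c))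
    (h10 : 10 * 3 ^ g ≤ x) (h12 : x < 12 * 3 ^ g)
    (he : Even (Nat.log 2 x)) (ho : Odd (Nat.log 2 (x / 5))) :
    #P + #Q + 1 ≤ F x + F (x / 5) := by
  have h3g : 1 ≤ 3 ^ g := Nat.one_le_pow _ _ (by norm_num)
  have h1 := card_le_F hP (by omega) hPle
  have h2 := card_le_F hQ (by omega) hQle
  by_contra hcon
  have h3 : F x ≤ #P := by omega
  have h4 : F (x / 5) ≤ #Q := by omega
  obtain ⟨s1, s2⟩ := struct_first hP hPle h10 h12 he h3
  have s3 := struct_second hQ hQle (g := g) (by omega) (by omega) ho h4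
  refine cross _ s1 _ s2 _ s3 (by simp) ⟨?_, ?_⟩ <;> rw [le_iff'] <;> simp

end Pool.Agent.Helper56.DivTwo
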