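import Pool.Agent.Helper56.DivTwo.Defs

/-!
The planar (3-smooth) part: upper bounds for planar admissible sets of exponent pairs.
-/

namespace Pool.Agent.Helper56.DivTwo

open Finset

/-- Lower elements of full rows. -/
def lows (P : Finset (ℕ × ℕ)) : Finset (ℕ × ℕ) :=
  P.filter fun p => ∃ q ∈ P, q.2 = p.2 ∧ p.1 < q.1

/-- Upper elements of full rows. -/
def tops (P : Finset (ℕ × ℕ)) : Finset (ℕ × ℕ) :=
  P.filter fun p => ∃ q ∈ P, q.2 = p.2 ∧ q.1 < p.1

theorem mem_lows {P : Finset (ℕ × ℕ)} {p : ℕ × ℕ} :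
    p ∈ lows P ↔ p ∈ P ∧ ∃ q ∈ P, q.2 = p.2 ∧ p.1 < q.1 := by
  unfold lows; rw [Finset.mem_filter]

theorem mem_tops {P : Finset (ℕ × ℕ)} {p : ℕ × ℕ} :
    p ∈ tops P ↔ p ∈ P ∧ ∃ q ∈ P, q.2 = p.2 ∧ q.1 < p.1 := by
  unfold tops; rw [Finset.mem_filter]

theorem le_iff' {p q : ℕ × ℕ} : p ≤ q ↔ p.1 ≤ q.1 ∧ p.2 ≤ q.2 := Prod.le_def

theorem ne_of_fst {p q : ℕ × ℕ} (h : p.1 ≠ q.1) : p ≠ q := fun e => h (by rw [e])
theorem ne_of_snd {p q : ℕ × ℕ} (h : p.2 ≠ q.2) : p ≠ q := fun e => h (by rw [e])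

theorem disj_lows_tops {P : Finset (ℕ × ℕ)} (hP : PAdm P) : Disjoint (lows P) (tops P) := by
  rw [Finset.disjoint_left]
  intro p hl ht
  rw [mem_lows] at hl
  rw [mem_tops] at ht
  obtain ⟨hp, q, hq, hq2, hq1⟩ := hl
  obtain ⟨_, s, hs, hs2, hs1⟩ := ht
  refine hP s hs p hp q hq (ne_of_fst (by omega)) (ne_of_fst (by omega)) (ne_of_fst (by omega))
    ⟨?_, ?_⟩ <;> rw [le_iff'] <;> constructor <;> omega

/-- In a full row, the row data. -/
theorem row_of_mem {P : Finset (ℕ × ℕ)} {p : ℕ × ℕ} (hp : p ∈ lows P ∪ tops P) :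
    ∃ l ∈ lows P, ∃ t ∈ tops P, l.2 = p.2 ∧ t.2 = p.2 ∧ l.1 < t.1 ∧ (p = l ∨ p = t) := by
  rw [Finset.mem_union] at hp
  rcases hp with hp | hp
  · have hp' := hp
    rw [mem_lows] at hp
    obtain ⟨hp, q, hq, hq2, hq1⟩ := hp
    exact ⟨p, hp', q, mem_tops.2 ⟨hq, p, hp, hq2.symm, hq1⟩, rfl, hq2, hq1, Or.inl rfl⟩
  · have hp' := hp
    rw [mem_tops] at hp
    obtain ⟨hp, q, hq, hq2, hq1⟩ := hp
    exact ⟨q, mem_lows.2 ⟨hq, p, hp, hq2.symm, hq1⟩, p, hp', hq2, rfl, hq1, Or.inr rfl⟩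

theorem injOn_snd_lows {P : Finset (ℕ × ℕ)} (hP : PAdm P) :
    Set.InjOn Prod.snd (lows P : Set (ℕ × ℕ)) := by
  intro p hp q hq h
  rw [Finset.mem_coe, mem_lows] at hp hq
  obtain ⟨hp, s, hs, hs2, hs1⟩ := hp
  obtain ⟨hq, t, ht, ht2, ht1⟩ := hq
  by_contra hne
  have h1 : p.1 ≠ q.1 := fun e => hne (Prod.ext e h)
  rcases Nat.lt_or_gt_of_ne h1 with hlt | hlt
  · -- p < q < t
    refine hP p hp q hq t ht hne (ne_of_fst (by omega)) (ne_of_fst (by omega)) ⟨?_, ?_⟩ <;>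
      rw [le_iff'] <;> constructor <;> omega
  · refine hP q hq p hp s hs (Ne.symm hne) (ne_of_fst (by omega)) (ne_of_fst (by omega))
      ⟨?_, ?_⟩ <;> rw [le_iff'] <;> constructor <;> omega

theorem injOn_snd_tops {P : Finset (ℕ × ℕ)} (hP : PAdm P) :
    Set.InjOn Prod.snd (tops P : Set (ℕ × ℕ)) := by
  intro p hp q hq h
  rw [Finset.mem_coe, mem_tops] at hp hq
  obtain ⟨hp, s, hs, hs2, hs1⟩ := hp
  obtain ⟨hq, t, ht, ht2, ht1⟩ := hq
  by_contra hne
  have h1 : p.1 ≠ q.1 := fun e => hne (Prod.ext e h)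
  rcases Nat.lt_or_gt_of_ne h1 with hlt | hlt
  · refine hP s hs p hp q hq (ne_of_fst (by omega)) (ne_of_fst (by omega)) hne ⟨?_, ?_⟩ <;>
      rw [le_iff'] <;> constructor <;> omega
  · refine hP t ht q hq p hp (ne_of_fst (by omega)) (ne_of_fst (by omega)) (Ne.symm hne)
      ⟨?_, ?_⟩ <;> rw [le_iff'] <;> constructor <;> omega

theorem card_tops {P : Finset (ℕ × ℕ)} (hP : PAdm P) : #(tops P) = #(lows P) := by
  rw [← Finset.card_image_of_injOn (injOn_snd_lows hP),
    ← Finset.card_image_of_injOn (injOn_snd_tops hP)]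
  congr 1
  ext j
  rw [Finset.mem_image, Finset.mem_image]
  constructor
  · rintro ⟨p, hp, rfl⟩
    obtain ⟨l, hl, t, ht, h1, h2, -, -⟩ := row_of_mem (Finset.mem_union_right _ hp)
    exact ⟨l, hl, h1⟩
  · rintro ⟨p, hp, rfl⟩
    obtain ⟨l, hl, t, ht, h1, h2, -, -⟩ := row_of_mem (Finset.mem_union_left _ hp)
    exact ⟨t, ht, h2⟩

theorem injOn_fst {P : Finset (ℕ × ℕ)} (hP : PAdm P) :
    Set.InjOn Prod.fst ((lows P ∪ tops P : Finset (ℕ × ℕ)) : Set (ℕ × ℕ)) := by
  have key : ∀ p ∈ lows P ∪ tops P, ∀ q ∈ lows P ∪ tops P, p.1 = q.1 → p.2 < q.2 → False := by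
    intro p hp q hq h1 h2
    obtain ⟨l, hl, t, ht, e1, e2, e3, e4⟩ := row_of_mem hp
    have hqP : q ∈ P := by
      rw [Finset.mem_union, mem_lows, mem_tops] at hq
      tauto
    have hlP : l ∈ P := (mem_lows.1 hl).1
    have htP : t ∈ P := (mem_tops.1 ht).1
    have hp1 : l.1 ≤ p.1 := by
      rcases e4 with e4 | e4 <;> rw [e4] <;> omega
    refine hP l hlP t htP q hqP (ne_of_fst (by omega)) (ne_of_snd (by omega))
      (ne_of_snd (by omega)) ⟨?_, ?_⟩ <;> rw [le_iff'] <;> constructor <;> omega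
  intro p hp q hq h
  rw [Finset.mem_coe] at hp hq
  rcases Nat.lt_trichotomy p.2 q.2 with h2 | h2 | h2
  · exact (key p hp q hq h h2).elim
  · exact Prod.ext h h2
  · exact (key q hq p hp h.symm h2).elim

theorem card_union {P : Finset (ℕ × ℕ)} (hP : PAdm P) :
    #(lows P ∪ tops P) = 2 * #(lows P) := by
  rw [Finset.card_union_of_disjoint (disj_lows_tops hP), card_tops hP]; ring

/-- Number of elements = number of rows + number of full rows. -/
theorem card_eq {P : Finset (ℕ × ℕ)} (hP : PAdm P) :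
    #P = #(P.image Prod.snd) + #(lows P) := by
  have h1 : #(P \ lows P) + #(lows P) = #P :=
    Finset.card_sdiff_add_card_eq_card (Finset.filter_subset _ _)
  rw [← h1]
  congr 1
  rw [← Finset.card_image_of_injOn (s := P \ lows P) (f := Prod.snd)]
  · congr 1
    ext j
    rw [Finset.mem_image, Finset.mem_image]
    constructor
    · rintro ⟨p, hp, rfl⟩
      exact ⟨p, (Finset.mem_sdiff.1 hp).1, rfl⟩
    · rintro ⟨p, hp, rfl⟩
      by_cases hl : p ∈ lows P
      · have hl' := hl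
        rw [mem_lows] at hl'
        obtain ⟨_, q, hq, hq2, hq1⟩ := hl'
        refine ⟨q, Finset.mem_sdiff.2 ⟨hq, ?_⟩, hq2⟩
        intro hql
        have := injOn_snd_lows hP hl hql hq2.symm
        rw [this] at hq1
        omega
      · exact ⟨p, Finset.mem_sdiff.2 ⟨hp, hl⟩, rfl⟩
  · intro p hp q hq h
    rw [Finset.mem_coe, Finset.mem_sdiff, mem_lows] at hp hq
    by_contra hne
    have h1 : p.1 ≠ q.1 := fun e => hne (Prod.ext e h)
    rcases Nat.lt_or_gt_of_ne h1 with hlt | hlt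
    · exact hp.2 ⟨hp.1, q, hq.1, h.symm, hlt⟩
    · exact hq.2 ⟨hq.1, p, hp.1, h, hlt⟩

section bounds

variable {P : Finset (ℕ × ℕ)} {x : ℕ}

theorem fst_le_log (hx : 1 ≤ x) (hle : ∀ p ∈ P, 2 ^ p.1 * 3 ^ p.2 ≤ x) {p : ℕ × ℕ} (hp : p ∈ P) :
    p.1 ≤ Nat.log 2 x := by
  apply Nat.le_log_of_pow_le (by norm_num)
  calc 2 ^ p.1 ≤ 2 ^ p.1 * 3 ^ p.2 := Nat.le_mul_of_pos_right _ (by positivity)
    _ ≤ x := hle p hp

theorem snd_le_log (hx : 1 ≤ x) (hle : ∀ p ∈ P, 2 ^ p.1 * 3 ^ p.2 ≤ x) {p : ℕ × ℕ} (hp : p ∈ P) :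
    p.2 ≤ Nat.log 3 x := by
  apply Nat.le_log_of_pow_le (by norm_num)
  calc 3 ^ p.2 ≤ 2 ^ p.1 * 3 ^ p.2 := Nat.le_mul_of_pos_left _ (by positivity)
    _ ≤ x := hle p hp

theorem rows_le (hx : 1 ≤ x) (hle : ∀ p ∈ P, 2 ^ p.1 * 3 ^ p.2 ≤ x) :
    P.image Prod.snd ⊆ Finset.range (Nat.log 3 x + 1) := by
  intro j hj
  rw [Finset.mem_image] at hj
  obtain ⟨p, hp, rfl⟩ := hj
  rw [Finset.mem_range]
  have := snd_le_log hx hle hp
  omega

theorem exps_le (hx : 1 ≤ x) (hle : ∀ p ∈ P, 2 ^ p.1 * 3 ^ p.2 ≤ x) :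
    (lows P ∪ tops P).image Prod.fst ⊆ Finset.range (Nat.log 2 x + 1) := by
  intro j hj
  rw [Finset.mem_image] at hj
  obtain ⟨p, hp, rfl⟩ := hj
  rw [Finset.mem_range]
  have hpP : p ∈ P := by
    rw [Finset.mem_union, mem_lows, mem_tops] at hp
    tauto
  have := fst_le_log hx hle hpP
  omega

theorem two_lows_le (hP : PAdm P) (hx : 1 ≤ x) (hle : ∀ p ∈ P, 2 ^ p.1 * 3 ^ p.2 ≤ x) :
    2 * #(lows P) ≤ Nat.log 2 x + 1 := by
  rw [← card_union hP, ← Finset.card_image_of_injOn (injOn_fst hP)]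
  simpa using Finset.card_le_card (exps_le hx hle)

theorem nrows_le (hx : 1 ≤ x) (hle : ∀ p ∈ P, 2 ^ p.1 * 3 ^ p.2 ≤ x) :
    #(P.image Prod.snd) ≤ Nat.log 3 x + 1 := by
  simpa using Finset.card_le_card (rows_le hx hle)

/-- If exponent `0` occurs in a full row then that row is below all other rows... -/
theorem low_zero (hP : PAdm P) {l t q : ℕ × ℕ} (hl : l ∈ P) (ht : t ∈ P) (hq : q ∈ P)
    (h2 : t.2 = l.2) (h1 : l.1 < t.1) (hq1 : l.1 ≤ q.1) (hq2 : l.2 < q.2) : False := by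
  refine hP l hl t ht q hq (ne_of_fst (by omega)) (ne_of_snd (by omega))
    (ne_of_snd (by omega)) ⟨?_, ?_⟩ <;> rw [le_iff'] <;> constructor <;> omega

theorem card_le_F (hP : PAdm P) (hx : 1 ≤ x) (hle : ∀ p ∈ P, 2 ^ p.1 * 3 ^ p.2 ≤ x) :
    #P ≤ F x := by
  have h1 := card_eq hP
  have h2 := two_lows_le hP hx hle
  have h3 := nrows_le hx hle
  unfold F
  rcases Nat.even_or_odd (Nat.log 2 x) with he | ho
  · have e0 : Nat.log 2 x % 2 = 0 := Nat.even_iff.1 he
    rw [e0, Nat.add_zero, Nat.div_one]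
    omega
  · have e0 : Nat.log 2 x % 2 = 1 := Nat.odd_iff.1 ho
    rw [e0]
    norm_num
    have hx2 : 2 ≤ x := by
      by_contra hc
      have : x = 1 := by omega
      rw [this] at e0
      simp at e0
    -- compare log 3 x with log 3 (x/2)
    by_cases hb : Nat.log 3 x ≤ Nat.log 3 (x / 2)
    · omega
    · -- 3^β ≤ x < 2*3^β
      have hb' : x / 2 < 3 ^ Nat.log 3 x := by
        rw [← Nat.log_lt_iff_lt_pow (by norm_num) (by omega)]
        omega
      have hb'' : x < 2 * 3 ^ Nat.log 3 x := by omega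
      have hlog : Nat.log 3 x ≤ Nat.log 3 (x / 2) + 1 := by
        have h5 : Nat.log 3 (x / 2 * 3) = Nat.log 3 (x / 2) + 1 :=
          Nat.log_mul_base (by norm_num) (by omega)
        rw [← h5]
        apply Nat.log_mono_right
        omega
      by_cases hfull : 2 * #(lows P) = Nat.log 2 x + 1
      · -- all exponents are used; exponent 0 is used by a lower element
        have himg : (lows P ∪ tops P).image Prod.fst = Finset.range (Nat.log 2 x + 1) := by
          apply Finset.eq_of_subset_of_card_le (exps_le hx hle)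
          rw [Finset.card_image_of_injOn (injOn_fst hP), card_union hP, hfull]
          simp
        have h0 : 0 ∈ (lows P ∪ tops P).image Prod.fst := by
          rw [himg]; simp
        rw [Finset.mem_image] at h0
        obtain ⟨p, hp, hp0⟩ := h0
        obtain ⟨l, hl, t, ht, e1, e2, e3, e4⟩ := row_of_mem hp
        have hpl : p = l := by
          rcases e4 with e4 | e4
          · exact e4
          · rw [← e4] at e3; omega
        have hlP : l ∈ P := (mem_lows.1 hl).1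
        have htP : t ∈ P := (mem_tops.1 ht).1
        -- the top row is empty
        have hrow : P.image Prod.snd ⊆ Finset.range (Nat.log 3 x) := by
          intro j hj
          have hj' := rows_le hx hle hj
          rw [Finset.mem_range] at hj' ⊢
          by_contra hjc
          have hjb : j = Nat.log 3 x := by omega
          rw [Finset.mem_image] at hj
          obtain ⟨q, hq, hqj⟩ := hj
          have ht2 : 2 * 3 ^ t.2 ≤ x := by
            calc 2 * 3 ^ t.2 = 2 ^ 1 * 3 ^ t.2 := by ring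
              _ ≤ 2 ^ t.1 * 3 ^ t.2 := by
                  apply Nat.mul_le_mul_right
                  exact Nat.pow_le_pow_right (by norm_num) (by omega)
              _ ≤ x := hle t htP
          have ht3 : t.2 < Nat.log 3 x := by
            by_contra hcc
            have : 3 ^ Nat.log 3 x ≤ 3 ^ t.2 := Nat.pow_le_pow_right (by norm_num) (by omega)
            omega
          refine low_zero hP hlP htP hq (by omega) e3 ?_ (by omega)
          rw [hpl] at hp0
          omega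
        have h6 := Finset.card_le_card hrow
        rw [Finset.card_range] at h6
        omega
      · omega

end bounds

end Pool.Agent.Helper56.DivTwo
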