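import Pool.Agent.Helper56.DivTwo.Pair
import Pool.Agent.Helper56.DivTwo.Chain

/-!
The upper bound for the size of an admissible subset of `[1, n]`.
-/

namespace Pool.Agent.Helper56.DivTwo

open Finset

/-- The exponent pairs `(i, j)` with `2^i 3^j r ∈ A`. -/
def chain (n r : ℕ) (A : Finset ℕ) : Finset (ℕ × ℕ) :=
  ((Finset.range (n + 1)) ×ˢ (Finset.range (n + 1))).filter fun p => 2 ^ p.1 * 3 ^ p.2 * r ∈ A

theorem mem_chain {n r : ℕ} {A : Finset ℕ} (hA : A ⊆ Finset.Icc 1 n) {p : ℕ × ℕ} :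
    p ∈ chain n r A ↔ 2 ^ p.1 * 3 ^ p.2 * r ∈ A := by
  unfold chain
  rw [Finset.mem_filter, Finset.mem_product, Finset.mem_range, Finset.mem_range]
  constructor
  · exact fun h => h.2
  · intro h
    refine ⟨?_, h⟩
    have h1 := Finset.mem_Icc.1 (hA h)
    have hr : 0 < r := by
      rcases Nat.eq_zero_or_pos r with h0 | h0
      · rw [h0] at h1; simp at h1
      · exact h0
    have h2 : p.1 < 2 ^ p.1 := Nat.lt_two_pow_self
    have h3 : p.2 < 3 ^ p.2 := Nat.lt_pow_self (by norm_num)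
    have h4 : 1 ≤ 2 ^ p.1 := Nat.one_le_two_pow
    have h5 : 1 ≤ 3 ^ p.2 := Nat.one_le_pow _ _ (by norm_num)
    have h6 : 2 ^ p.1 ≤ 2 ^ p.1 * 3 ^ p.2 * r := by
      calc 2 ^ p.1 = 2 ^ p.1 * 1 * 1 := by ring
        _ ≤ 2 ^ p.1 * 3 ^ p.2 * r := by gcongr; exact hr
    have h7 : 3 ^ p.2 ≤ 2 ^ p.1 * 3 ^ p.2 * r := by
      calc 3 ^ p.2 = 1 * 3 ^ p.2 * 1 := by ring
        _ ≤ 2 ^ p.1 * 3 ^ p.2 * r := by gcongr; exact hr
    omega

theorem chain_le {n r : ℕ} {A : Finset ℕ} (hA : A ⊆ Finset.Icc 1 n) (hr : 0 < r) :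
    ∀ p ∈ chain n r A, 2 ^ p.1 * 3 ^ p.2 ≤ n / r := by
  intro p hp
  rw [mem_chain hA] at hp
  rw [Nat.le_div_iff_mul_le hr]
  exact (Finset.mem_Icc.1 (hA hp)).2

theorem rep_inj {r : ℕ} (h : Nat.Coprime r 6) {p q : ℕ × ℕ}
    (e : 2 ^ p.1 * 3 ^ p.2 * r = 2 ^ q.1 * 3 ^ q.2 * r) : p = q := by
  have h1 := v2_rep (i := p.1) (j := p.2) h
  have h2 := v3_rep (i := p.1) (j := p.2) h
  rw [e, v2_rep h] at h1
  rw [e, v3_rep h] at h2
  exact Prod.ext h1.symm h2.symm

theorem dvd_of_le {r : ℕ} {p q : ℕ × ℕ} (h : p ≤ q) :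
    2 ^ p.1 * 3 ^ p.2 * r ∣ 2 ^ q.1 * 3 ^ q.2 * r := by
  rw [le_iff'] at h
  exact Nat.mul_dvd_mul (Nat.mul_dvd_mul (Nat.pow_dvd_pow _ h.1) (Nat.pow_dvd_pow _ h.2)) dvd_rfl

theorem chain_PAdm {n r : ℕ} {A : Finset ℕ} (hA : A ⊆ Finset.Icc 1 n) (hadm : Admissible A)
    (h : Nat.Coprime r 6) : PAdm (chain n r A) := by
  intro a ha b hb c hc hab hac hbc hle
  rw [mem_chain hA] at ha hb hc
  exact hadm _ ha _ hb _ hc (fun e => hab (rep_inj h e)) (fun e => hac (rep_inj h e))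
    (fun e => hbc (rep_inj h e)) ⟨dvd_of_le hle.1, dvd_of_le hle.2⟩

theorem rp_mem_rough {n m : ℕ} (hm : m ∈ Finset.Icc 1 n) : rp m ∈ rough n := by
  rw [Finset.mem_Icc] at hm
  obtain ⟨h1, h2⟩ := rep_rp (m := m) (by omega)
  unfold rough
  rw [Finset.mem_filter, Finset.mem_Icc]
  have h3 := pos_of_coprime h2
  refine ⟨⟨h3, ?_⟩, h2⟩
  have : rp m ≤ 2 ^ padicValNat 2 m * 3 ^ padicValNat 3 m * rp m :=
    Nat.le_mul_of_pos_left _ (by positivity)
  omega

theorem card_chain {n r : ℕ} {A : Finset ℕ} (hA : A ⊆ Finset.Icc 1 n) (h : Nat.Coprime r 6) :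
    #(A.filter fun m => rp m = r) = #(chain n r A) := by
  symm
  refine Finset.card_bij (fun p _ => 2 ^ p.1 * 3 ^ p.2 * r) ?_ ?_ ?_
  · intro p hp
    rw [mem_chain hA] at hp
    rw [Finset.mem_filter]
    exact ⟨hp, rp_rep h⟩
  · intro p _ q _ e
    exact rep_inj h e
  · intro m hm
    rw [Finset.mem_filter] at hm
    have hm1 := Finset.mem_Icc.1 (hA hm.1)
    obtain ⟨h1, -⟩ := rep_rp (m := m) (by omega)
    rw [hm.2] at h1
    exact ⟨(padicValNat 2 m, padicValNat 3 m), by rw [mem_chain hA, h1]; exact hm.1, h1⟩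

theorem card_eq_sum_chain {n : ℕ} {A : Finset ℕ} (hA : A ⊆ Finset.Icc 1 n) :
    #A = ∑ r ∈ rough n, #(chain n r A) := by
  rw [Finset.card_eq_sum_card_fiberwise (f := rp) (t := rough n)
    (fun m hm => rp_mem_rough (hA hm))]
  apply Finset.sum_congr rfl
  intro r hr
  unfold rough at hr
  rw [Finset.mem_filter] at hr
  exact card_chain hA hr.2

open Classical in
/-- The exceptional chains. -/
noncomputable def zone (n : ℕ) : Finset ℕ := (rough n).filter fun r =>
  (∃ g, 10 * 3 ^ g * r ≤ n ∧ n < 12 * 3 ^ g * r) ∧ Even (Nat.log 2 (n / r)) ∧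
    Odd (Nat.log 2 (n / (5 * r)))

theorem mem_exc {n u : ℕ} : u ∈ exc n ↔ (1 ≤ u ∧ u ≤ n) ∧ Odd u ∧ 10 * u ≤ n ∧ n < 12 * u ∧
    Even (lam n u) ∧ Odd (lam n (5 * u)) := by
  unfold exc; rw [Finset.mem_filter, Finset.mem_Icc]

/-- an element of `exc n` in terms of its representation -/
theorem exc_rep {n u : ℕ} (hu : u ∈ exc n) : ∃ g r, Nat.Coprime r 6 ∧ u = 3 ^ g * r ∧ rp u = r ∧
    r ∈ zone n := by
  classical
  rw [mem_exc] at hu
  obtain ⟨⟨h1, h2⟩, hodd, h10, h12, he, ho⟩ := hu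
  obtain ⟨i, j, r, hr, rfl⟩ := exists_rep (m := u) (by omega)
  have hi : i = 0 := by
    by_contra hi
    have : 2 ∣ 2 ^ i * 3 ^ j * r := by
      apply Dvd.dvd.mul_right
      apply Dvd.dvd.mul_right
      exact dvd_pow_self 2 hi
    have h3 := Nat.odd_iff.1 hodd
    omega
  subst hi
  refine ⟨j, r, hr, by ring, rp_rep hr, ?_⟩
  have hr0 := pos_of_coprime hr
  have h5 : Nat.Coprime (5 * r) 6 := Nat.Coprime.mul_left (by norm_num) hr
  rw [lam_rep hr, Nat.sub_zero] at he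
  have e5 : 5 * (2 ^ 0 * 3 ^ j * r) = 2 ^ 0 * 3 ^ j * (5 * r) := by ring
  rw [e5, lam_rep h5, Nat.sub_zero] at ho
  unfold zone rough
  rw [Finset.mem_filter, Finset.mem_filter, Finset.mem_Icc]
  have h3j : 1 ≤ 3 ^ j := Nat.one_le_pow _ _ (by norm_num)
  have hrj : r ≤ 2 ^ 0 * 3 ^ j * r := Nat.le_mul_of_pos_left _ (by positivity)
  exact ⟨⟨⟨hr0, by omega⟩, hr⟩, ⟨j, by linarith [h10], by linarith [h12]⟩, he, ho⟩

theorem card_exc_le (n : ℕ) : #(exc n) ≤ #(zone n) := by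
  apply Finset.card_le_card_of_injOn rp
  · intro u hu
    obtain ⟨g, r, -, -, e, hz⟩ := exc_rep hu
    rw [e]; exact hz
  · intro u hu v hv e
    rw [Finset.mem_coe] at hu hv
    obtain ⟨g, r, hr, e1, e2, -⟩ := exc_rep hu
    obtain ⟨g', r', hr', e1', e2', -⟩ := exc_rep hv
    rw [mem_exc] at hu hv
    have hrr : r = r' := by rw [← e2, ← e2']; exact e
    subst hrr
    have hr0 := pos_of_coprime hr
    have key : ∀ a b, 3 ^ a * r = u ∨ True → a < b → 10 * (3 ^ b * r) ≤ n → n < 12 * (3 ^ a * r) →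
        False := by
      intro a b _ hab h1 h2
      have h3 : 3 ^ (a + 1) * r ≤ 3 ^ b * r :=
        Nat.mul_le_mul_right _ (Nat.pow_le_pow_right (by norm_num) hab)
      have h4 : 3 ^ (a + 1) * r = 3 * (3 ^ a * r) := by ring
      have h5 : 0 < 3 ^ a * r := by positivity
      omega
    have hgg : g = g' := by
      rcases Nat.lt_trichotomy g g' with h | h | h
      · exact (key g g' (Or.inr trivial) h (by rw [← e1']; exact hv.2.2.1)
          (by rw [← e1]; exact hu.2.2.2.1)).elim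
      · exact h
      · exact (key g' g (Or.inr trivial) h (by rw [← e1]; exact hu.2.2.1)
          (by rw [← e1']; exact hv.2.2.2.1)).elim
    rw [e1, e1', hgg]

/-- The upper bound. -/
theorem upper {n : ℕ} {A : Finset ℕ} (hA : A ⊆ Finset.Icc 1 n) (hadm : Admissible A) :
    #A + #(exc n) ≤ ∑ r ∈ rough n, F (n / r) := by
  classical
  have hcr : ∀ r ∈ rough n, Nat.Coprime r 6 ∧ 0 < r ∧ r ≤ n := by
    intro r hr
    unfold rough at hr
    rw [Finset.mem_filter, Finset.mem_Icc] at hr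
    exact ⟨hr.2, by omega, hr.1.2⟩
  have hb : ∀ r ∈ rough n, #(chain n r A) ≤ F (n / r) := by
    intro r hr
    obtain ⟨h1, h2, h3⟩ := hcr r hr
    exact card_le_F (chain_PAdm hA hadm h1) (Nat.div_pos h3 h2) (chain_le hA h2)
  have hsum : ∑ r ∈ rough n, F (n / r) =
      ∑ r ∈ rough n, #(chain n r A) + ∑ r ∈ rough n, (F (n / r) - #(chain n r A)) := by
    rw [← Finset.sum_add_distrib]
    apply Finset.sum_congr rfl
    intro r hr
    have := hb r hr
    omega
  rw [hsum, ← card_eq_sum_chain hA]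
  apply Nat.add_le_add_left
  refine (card_exc_le n).trans ?_
  -- the zone and its multiples by 5
  have hz : ∀ r ∈ zone n, r ∈ rough n ∧ 5 * r ∈ rough n ∧
      1 ≤ (F (n / r) - #(chain n r A)) + (F (n / (5 * r)) - #(chain n (5 * r) A)) := by
    intro r hr
    unfold zone at hr
    rw [Finset.mem_filter] at hr
    obtain ⟨hr1, ⟨g, h10, h12⟩, he, ho⟩ := hr
    obtain ⟨h1, h2, h3⟩ := hcr r hr1
    have h5 : Nat.Coprime (5 * r) 6 := Nat.Coprime.mul_left (by norm_num) h1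
    have h3g : 1 ≤ 3 ^ g := Nat.one_le_pow _ _ (by norm_num)
    have h5n : 5 * r ≤ n := by
      have h6 : 1 * r ≤ 3 ^ g * r := Nat.mul_le_mul_right _ h3g
      have h7 : 10 * 3 ^ g * r = 10 * (3 ^ g * r) := by ring
      omega
    have h5r : 5 * r ∈ rough n := by
      unfold rough
      rw [Finset.mem_filter, Finset.mem_Icc]
      exact ⟨⟨by omega, h5n⟩, h5⟩
    refine ⟨hr1, h5r, ?_⟩
    have hdiv : n / (5 * r) = n / r / 5 := by
      rw [Nat.div_div_eq_div_mul, mul_comm]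
    have hpair := pair_lt (P := chain n r A) (Q := chain n (5 * r) A) (x := n / r) (g := g)
      (chain_PAdm hA hadm h1) (chain_PAdm hA hadm h5) (chain_le hA h2)
      (by rw [← hdiv]; exact chain_le hA (by omega))
      (by
        intro a ha b hb c hc hab hle
        rw [mem_chain hA] at ha hb hc
        have hdvd : 2 ^ a.1 * 3 ^ a.2 * r ∣ 2 ^ c.1 * 3 ^ c.2 * (5 * r) := by
          have := dvd_of_le (r := r) hle.2
          refine this.trans ⟨5, by ring⟩
        refine hadm _ ha _ hb _ hc (fun e => hab (rep_inj h1 e)) ?_ ?_ ⟨dvd_of_le hle.1, hdvd⟩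
        · intro e
          have h8 := rp_rep (i := a.1) (j := a.2) h1
          rw [e, rp_rep h5] at h8
          omega
        · intro e
          have h8 := rp_rep (i := b.1) (j := b.2) h1
          rw [e, rp_rep h5] at h8
          omega)
      (by rw [Nat.le_div_iff_mul_le h2]; exact h10)
      (by rw [Nat.div_lt_iff_lt_mul h2]; exact h12)
      he (by rw [← hdiv]; exact ho)
    rw [← hdiv] at hpair
    have hb1 := hb r hr1
    have hb2 := hb _ h5r
    omega
  have hdisj : Disjoint (zone n) ((zone n).image (5 * ·)) := by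
    rw [Finset.disjoint_left]
    intro s hs hs'
    rw [Finset.mem_image] at hs'
    obtain ⟨r, hr, rfl⟩ := hs'
    unfold zone at hs hr
    rw [Finset.mem_filter] at hs hr
    have h1 := hs.2.2.1
    have h2 := hr.2.2.2
    rw [Nat.even_iff] at h1
    rw [Nat.odd_iff] at h2
    omega
  calc #(zone n) = ∑ r ∈ zone n, 1 := by simp
    _ ≤ ∑ r ∈ zone n, ((F (n / r) - #(chain n r A)) +
          (F (n / (5 * r)) - #(chain n (5 * r) A))) :=
        Finset.sum_le_sum fun r hr => (hz r hr).2.2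
    _ = ∑ r ∈ zone n, (F (n / r) - #(chain n r A)) +
          ∑ r ∈ zone n, (F (n / (5 * r)) - #(chain n (5 * r) A)) := Finset.sum_add_distrib
    _ = ∑ r ∈ zone n, (F (n / r) - #(chain n r A)) +
          ∑ s ∈ (zone n).image (5 * ·), (F (n / s) - #(chain n s A)) := by
        congr 1
        rw [Finset.sum_image]
        intro a _ b _ e
        simp only at e
        omega
    _ = ∑ r ∈ zone n ∪ (zone n).image (5 * ·), (F (n / r) - #(chain n r A)) :=
        (Finset.sum_union hdisj).symm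
    _ ≤ ∑ r ∈ rough n, (F (n / r) - #(chain n r A)) := by
        apply Finset.sum_le_sum_of_subset
        intro s hs
        rw [Finset.mem_union, Finset.mem_image] at hs
        rcases hs with hs | ⟨r, hr, rfl⟩
        · exact (hz s hs).1
        · exact (hz r hr).2.1

end Pool.Agent.Helper56.DivTwo
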